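import Pool.Agent.Lib.MP_c28bf6_an.LC.Stm

/-! # A repeated element gives a zero Pfaffian -/

namespace Pool.Agent.Lib.MP_c28bf6_an.LC

lemma ALT_core {α : Type} (K : α → α → ℝ) (hK : ∀ a b, K a b = - K b a) (i : α) (r : List α) :
    ∀ (m l1 : List α), pf K (l1 ++ i :: (m ++ i :: r)) = 0 := by
  intro m
  induction m with
  | nil =>
    intro l1
    have h := pf_swap K l1 i i r
    have h0 : K i i + K i i = 0 := by
      have := hK i i
      linarith
    rw [h0, zero_mul] at h
    simp only [List.nil_append]
    linarith
  | cons b m ih =>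
    intro l1
    have h := pf_swap K l1 i b (m ++ i :: r)
    have h0 : K i b + K b i = 0 := by
      have := hK i b
      linarith
    rw [h0, zero_mul] at h
    have h1 := ih (l1 ++ [b])
    rw [List.append_assoc, List.singleton_append] at h1
    rw [List.cons_append]
    linarith

theorem p_ALT : S_ALT := by
  intro α K l1 l2 i hK hi
  rcases hi with hi | hi
  · obtain ⟨m, r, rfl⟩ := List.append_of_mem hi
    have h := ALT_core K hK i l2 r m
    rw [List.append_assoc, List.cons_append]
    exact h
  · obtain ⟨m, r, rfl⟩ := List.append_of_mem hi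
    exact ALT_core K hK i r m l1

end Pool.Agent.Lib.MP_c28bf6_an.LC
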