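import Pool.Agent.Lib.MP_c28bf6_an.LC.Stm

/-!
# Alternating sums of a quasiconvex positive function
-/

set_option autoImplicit false

namespace Pool.Agent.Lib.MP_c28bf6_an.LC

/-- an increasing sequence of even length -/
theorem ALTS_even (g : ℝ → ℝ) : ∀ l : List ℝ, l.Pairwise (fun a b => g a ≤ g b) →
    Even l.length → alt g l ≤ 0
  | [], _, _ => le_rfl
  | [x], _, h => by simp at h
  | x :: y :: l, hp, he => by
    rw [List.pairwise_cons, List.pairwise_cons] at hp
    have h1 : Even l.length := by
      simp only [List.length_cons] at he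
      rcases he with ⟨k, hk⟩
      exact ⟨k - 1, by omega⟩
    have h2 := ALTS_even g l hp.2.2 h1
    have h3 : g x ≤ g y := hp.1 y (by simp)
    show g x - (g y - alt g l) ≤ 0
    linarith

theorem ALTS_odd (g : ℝ → ℝ) (hg : ∀ x y z : ℝ, x < y → y < z → g y ≤ max (g x) (g z)) :
    ∀ l : List ℝ, l.Pairwise (· < ·) → (∀ x ∈ l, 0 < g x) → Odd l.length → 0 < alt g l
  | [], _, _, h => by simp at h
  | [x], _, h, _ => by
    show 0 < g x - 0
    have := h x (by simp)
    linarith
  | x :: y :: l, hp, hpos, ho => by
    have hl : Odd l.length := by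
      simp only [List.length_cons] at ho
      rcases ho with ⟨k, hk⟩
      exact ⟨k - 1, by omega⟩
    rw [List.pairwise_cons, List.pairwise_cons] at hp
    obtain ⟨hx, hy, hl2⟩ := hp
    have hxy : x < y := hx y (by simp)
    rcases le_or_gt (g y) (g x) with h | h
    · have h1 := ALTS_odd g hg l hl2 (fun z hz => hpos z (by simp [hz])) hl
      show 0 < g x - (g y - alt g l)
      linarith
    · have h1 : ∀ z ∈ l, g y ≤ g z := by
        intro z hz
        rcases le_max_iff.1 (hg x y z hxy (hy z hz)) with h2 | h2
        · linarith
        · exact h2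
      have h2 : l.Pairwise (fun a b => g a ≤ g b) := by
        refine hl2.imp_of_mem ?_
        intro a b ha hb hab
        rcases le_max_iff.1 (hg y a b (hy a ha) hab) with h3 | h3
        · exact h3.trans (h1 b hb)
        · exact h3
      have h3 : alt g (y :: l) ≤ 0 := by
        apply ALTS_even g
        · rw [List.pairwise_cons]
          exact ⟨h1, h2⟩
        · simp only [List.length_cons]
          exact hl.add_one
      have h4 := hpos x (by simp)
      show 0 < g x - alt g (y :: l)
      linarith

theorem p_ALTS : S_ALTS := by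
  intro g l hg hl hpos ho
  exact ALTS_odd g hg l hl hpos ho

end Pool.Agent.Lib.MP_c28bf6_an.LC
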