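import Pool.Agent.Lib.MP_c28bf6_an.LC.Stm

/-!
# Line and circle theorem: the piece APP (1 / r ^ 2 is a limit of exponential sums)
-/

open Filter Topology

set_option autoImplicit false

namespace Pool.Agent.Lib.MP_c28bf6_an.LC

lemma APP_inj (M : ℕ) (hM : 1 ≤ M) : Function.Injective (fun k : ℕ => (k : ℝ) / M) := by
  intro k l h
  have hM0 : (M : ℝ) ≠ 0 := by
    have : M ≠ 0 := by omega
    exact_mod_cast this
  have h1 : (k : ℝ) / M = (l : ℝ) / M := h
  rw [div_left_inj' hM0] at h1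
  exact_mod_cast h1

lemma APP_one (M : ℕ) (hM : 1 ≤ M) (a b : ℝ) (hab : a < b) :
    Tendsto (fun N : ℕ => KE (SM M N) (fun s => s / M) a b) atTop
      (𝓝 (((M : ℝ)⁻¹) ^ 2 * (Real.exp (-((b - a) / M)) / (1 - Real.exp (-((b - a) / M))) ^ 2))) := by
  have hM0 : (0 : ℝ) < M := by
    have : 0 < M := by omega
    exact_mod_cast this
  obtain ⟨x, hx⟩ : ∃ x : ℝ, x = Real.exp (-((b - a) / M)) := ⟨_, rfl⟩
  have hx0 : 0 < x := by rw [hx]; exact Real.exp_pos _
  have hx1 : x < 1 := by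
    rw [hx, Real.exp_lt_one_iff]
    have : 0 < (b - a) / M := div_pos (by linarith) hM0
    linarith
  have hs : HasSum (fun n : ℕ => (n : ℝ) * x ^ n) (x / (1 - x) ^ 2) := by
    apply hasSum_coe_mul_geometric_of_norm_lt_one
    rw [Real.norm_eq_abs, abs_of_pos hx0]
    exact hx1
  have h1 := ((tendsto_add_atTop_iff_nat 1).2 hs.tendsto_sum_nat).const_mul (((M : ℝ)⁻¹) ^ 2)
  rw [← hx]
  refine h1.congr fun N => ?_
  unfold KE SM
  rw [Finset.sum_image (fun k _ l _ h => APP_inj M hM h), Finset.mul_sum]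
  symm
  have h2 : ∀ k : ℕ, (k : ℝ) / M / M * Real.exp ((k : ℝ) / M * (a - b)) =
      ((M : ℝ)⁻¹) ^ 2 * ((k : ℝ) * x ^ k) := by
    intro k
    have h3 : Real.exp ((k : ℝ) / M * (a - b)) = x ^ k := by
      rw [hx, ← Real.exp_nat_mul]
      congr 1
      field_simp
      ring
    rw [h3]
    field_simp
  rw [Finset.sum_congr rfl (fun k _ => h2 k)]
  apply Finset.sum_subset
  · intro k hk
    rw [Finset.mem_Icc] at hk
    rw [Finset.mem_range]
    omega
  · intro k hk hk2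
    rw [Finset.mem_range] at hk
    rw [Finset.mem_Icc] at hk2
    have h0 : k = 0 := by omega
    rw [h0]
    simp

lemma APP_two (r : ℝ) (hr : 0 < r) : Tendsto (fun M : ℕ =>
    ((M : ℝ)⁻¹) ^ 2 * (Real.exp (-(r / M)) / (1 - Real.exp (-(r / M))) ^ 2)) atTop
      (𝓝 ((r ^ 2)⁻¹)) := by
  have hh : Tendsto (fun M : ℕ => -(r / (M : ℝ))) atTop (𝓝 0) := by
    have h := (tendsto_const_div_atTop_nhds_zero_nat r).neg
    rwa [neg_zero] at h
  have hh' : Tendsto (fun M : ℕ => -(r / (M : ℝ))) atTop (𝓝[≠] 0) := by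
    rw [tendsto_nhdsWithin_iff]
    refine ⟨hh, ?_⟩
    filter_upwards [eventually_ge_atTop 1] with M hM
    have hM0 : (0 : ℝ) < M := by
      have : 0 < M := by omega
      exact_mod_cast this
    have : 0 < r / (M : ℝ) := div_pos hr hM0
    show -(r / (M : ℝ)) ≠ 0
    linarith
  have hd : Tendsto (fun t : ℝ => t⁻¹ • (Real.exp (0 + t) - Real.exp 0)) (𝓝[≠] 0)
      (𝓝 (Real.exp 0)) := (Real.hasDerivAt_exp 0).tendsto_slope_zero
  have h1 := hd.comp hh'
  have h2 : Tendsto (fun M : ℕ => Real.exp (-(r / (M : ℝ)))) atTop (𝓝 1) := by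
    have h := (Real.continuous_exp.tendsto 0).comp hh
    rw [Real.exp_zero] at h
    exact h
  have h3 : Tendsto (fun M : ℕ => Real.exp (-(r / (M : ℝ))) /
      (r * ((-(r / (M : ℝ)))⁻¹ * (Real.exp (0 + -(r / (M : ℝ))) - Real.exp 0))) ^ 2) atTop
      (𝓝 (1 / (r * Real.exp 0) ^ 2)) := by
    apply Tendsto.div h2
    · exact (h1.const_mul r).pow 2
    · rw [Real.exp_zero]
      positivity
  have h4 : (1 / (r * Real.exp 0) ^ 2) = (r ^ 2)⁻¹ := by
    rw [Real.exp_zero, mul_one, one_div]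
  rw [h4] at h3
  refine h3.congr' ?_
  filter_upwards [eventually_ge_atTop 1] with M hM
  have hM0 : (0 : ℝ) < M := by
    have : 0 < M := by omega
    exact_mod_cast this
  have h5 : r * ((-(r / (M : ℝ)))⁻¹ * (Real.exp (0 + -(r / (M : ℝ))) - Real.exp 0)) =
      M * (1 - Real.exp (-(r / (M : ℝ)))) := by
    rw [zero_add, Real.exp_zero]
    field_simp
    ring
  rw [h5, mul_pow, ← div_div, div_eq_mul_inv (Real.exp _) ((M : ℝ) ^ 2), inv_pow]
  ring

lemma APP_three (M N : ℕ) (hM : 1 ≤ M) (hN : 2 * M ≤ N) :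
    1 ≤ ∑ s ∈ (SM M N).filter (· ≤ (2 : ℝ)), s / M := by
  have hM0 : (0 : ℝ) < M := by
    have : 0 < M := by omega
    exact_mod_cast this
  have hsub : (Finset.Ioc M (2 * M)).image (fun k : ℕ => (k : ℝ) / M) ⊆
      (SM M N).filter (· ≤ (2 : ℝ)) := by
    intro s hs
    rw [Finset.mem_image] at hs
    obtain ⟨k, hk, rfl⟩ := hs
    rw [Finset.mem_Ioc] at hk
    rw [Finset.mem_filter]
    refine ⟨Finset.mem_image.2 ⟨k, Finset.mem_Icc.2 ⟨by omega, by omega⟩, rfl⟩, ?_⟩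
    rw [div_le_iff₀ hM0]
    exact_mod_cast hk.2
  refine le_trans ?_ (Finset.sum_le_sum_of_subset_of_nonneg hsub ?_)
  · rw [Finset.sum_image (fun k _ l _ h => APP_inj M hM h)]
    have h1 : ∀ k ∈ Finset.Ioc M (2 * M), (1 : ℝ) / M ≤ (k : ℝ) / M / M := by
      intro k hk
      rw [Finset.mem_Ioc] at hk
      rw [div_le_div_iff_of_pos_right hM0, le_div_iff₀ hM0, one_mul]
      exact_mod_cast hk.1.le
    refine le_trans ?_ (Finset.card_nsmul_le_sum _ _ _ h1)
    rw [Nat.card_Ioc, nsmul_eq_mul]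
    have h2 : 2 * M - M = M := by omega
    rw [h2, mul_one_div_cancel hM0.ne']
  · intro s hs _
    rw [Finset.mem_filter] at hs
    obtain ⟨k, _, rfl⟩ := Finset.mem_image.1 hs.1
    positivity

theorem p_APP : S_APP := by
  refine ⟨?_, ?_, ?_⟩
  · intro M hM a b hab
    exact APP_one M hM a b hab
  · intro r hr
    exact APP_two r hr
  · intro M N hM hN
    exact APP_three M N hM hN

end Pool.Agent.Lib.MP_c28bf6_an.LC
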