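import Pool.Agent.Lib.MP_c28bf6_an.LC.Stm

/-!
# Choreographies that pass through a concyclic configuration: piece CIRC
-/

open Filter Topology

set_option autoImplicit false

namespace Pool.Agent.Lib.MP_c28bf6_an.LC

/-- the charges transported to the line -/
private noncomputable def CIRC_v {n : ℕ} (s : ZMod n → ℝ) (g : ℝ → ℝ) (k : ZMod n)
    (w : ZMod n → ℝ) (j : ZMod n) : ℝ := if j = k then 0 else w j * g (s j)

private lemma CIRC_eq {n : ℕ} [NeZero n] (s : ZMod n → ℝ) (g : ℝ → ℝ) (k : ZMod n)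
    (w : ZMod n → ℝ) (i : ZMod n)
    (h : ∑ j ∈ Finset.univ.erase k, w j * g (s j) * phi (s j - s i) = 0) :
    ∑ j, CIRC_v s g k w j * phi (s j - s i) = 0 := by
  rw [← Finset.add_sum_erase Finset.univ _ (Finset.mem_univ k)]
  have h1 : CIRC_v s g k w k = 0 := if_pos rfl
  rw [h1, zero_mul, zero_add, ← h]
  refine Finset.sum_congr rfl fun j hj => ?_
  have h2 : CIRC_v s g k w j = w j * g (s j) := if_neg (Finset.ne_of_mem_erase hj)
  rw [h2]

private lemma CIRC_zero {n : ℕ} [NeZero n] (s : ZMod n → ℝ) (g : ℝ → ℝ) (k : ZMod n)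
    (w : ZMod n → ℝ) (hg : ∀ j, j ≠ k → 0 < g (s j)) (hsum : ∑ j, w j = 0)
    (hv : ∀ j, CIRC_v s g k w j = 0) : w = 0 := by
  have h1 : ∀ j, j ≠ k → w j = 0 := by
    intro j hj
    have h2 := hv j
    unfold CIRC_v at h2
    rw [if_neg hj] at h2
    exact (mul_eq_zero.1 h2).resolve_right (hg j hj).ne'
  have h3 : w k = 0 := by
    rw [← Finset.add_sum_erase Finset.univ _ (Finset.mem_univ k)] at hsum
    rw [Finset.sum_eq_zero fun j hj => h1 j (Finset.ne_of_mem_erase hj), add_zero] at hsum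
    exact hsum
  funext j
  by_cases hj : j = k
  · rw [hj]
    exact h3
  · exact h1 j hj

/-- **[CIRC]** -/
theorem p_CIRC (h1 : S_LDAT) (h2 : S_RAD) (h3 : S_LKER) (h4 : S_LADJ) (h5 : S_SORT) (h6 : S_RHO)
    (h7 : S_ALTS) (h8 : S_CSUM) : S_CIRC := by
  intro E _ _ n _ W X hX hshift hsum heq hconc
  have hcard : ∀ k : ZMod n, ((Finset.univ : Finset (ZMod n)).erase k).card = n - 1 := by
    intro k
    rw [Finset.card_erase_of_mem (Finset.mem_univ k), Finset.card_univ, ZMod.card]
  have hn0 : n ≠ 0 := NeZero.ne n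
  have hdat : ∀ k : ZMod n, ∃ (s : ZMod n → ℝ) (g : ℝ → ℝ),
      (∀ x y z : ℝ, x < y → y < z → g y ≤ max (g x) (g z)) ∧
      (∀ j, j ≠ k → g (s j) = ‖X j - X k‖⁻¹) ∧
      (∀ i j, i ≠ k → j ≠ k → s i = s j → i = j) ∧ (∀ j, j ≠ k → 0 < g (s j)) ∧
      ∀ w ∈ W, ∀ i, i ≠ k → ∑ j, CIRC_v s g k w j * phi (s j - s i) = 0 := by
    intro k
    obtain ⟨s, g, ha, hb, hc, hd⟩ := h1 E (ZMod n) X k hX hconc
    refine ⟨s, g, ha, hb, hc, fun j hj => ?_, fun w hw i hi => ?_⟩
    · rw [hb j hj, inv_pos, norm_pos_iff, sub_ne_zero]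
      exact fun h => hj (hX h)
    · exact CIRC_eq s g k w i (hd w (heq w hw) i hi)
  have hker : ∀ (k : ZMod n) (s : ZMod n → ℝ) (g : ℝ → ℝ) (w : ZMod n → ℝ),
      (∀ i j, i ≠ k → j ≠ k → s i = s j → i = j) →
      (∀ i, i ≠ k → ∑ j, CIRC_v s g k w j * phi (s j - s i) = 0) →
      (Even (n - 1) → ∀ i, CIRC_v s g k w i = 0) ∧
      (Odd (n - 1) → ∀ i, i ≠ k → CIRC_v s g k w i = 0 → ∀ j, CIRC_v s g k w j = 0) := by
    intro k s g w hc hd
    obtain ⟨ha, hb⟩ := h3 (ZMod n) s (CIRC_v s g k w) (Finset.univ.erase k)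
      (fun i hi j hj hij => hc i j (Finset.ne_of_mem_erase hi) (Finset.ne_of_mem_erase hj) hij)
      (fun i hi => by
        have hik : i = k := by
          by_contra hne
          exact hi (Finset.mem_erase.2 ⟨hne, Finset.mem_univ i⟩)
        exact if_pos hik)
      (fun i hi => hd i (Finset.ne_of_mem_erase hi))
    rw [hcard k] at ha hb
    exact ⟨ha, fun ho i hi h => hb ho i (Finset.mem_erase.2 ⟨hi, Finset.mem_univ i⟩) h⟩
  rcases Nat.even_or_odd (n - 1) with he | ho
  · intro w hw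
    obtain ⟨s, g, -, -, hc, hpos, hd⟩ := hdat 0
    exact CIRC_zero s g 0 w hpos (hsum w hw) ((hker 0 s g w hc (hd w hw)).1 he)
  · have hn2 : 2 ≤ n := by
      have := ho.pos
      omega
    have hfact : Fact (1 < n) := ⟨hn2⟩
    have h10 : (0 : ZMod n) ≠ 1 := zero_ne_one
    have hA : ∀ w ∈ W, w 0 = 0 → w = 0 := by
      intro w hw hw0
      obtain ⟨s, g, -, -, hc, hpos, hd⟩ := hdat 1
      refine CIRC_zero s g 1 w hpos (hsum w hw) ((hker 1 s g w hc (hd w hw)).2 ho 0 h10 ?_)
      unfold CIRC_v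
      rw [if_neg h10, hw0, zero_mul]
    have hB := h6 n W hshift hsum hA
    intro w hw
    have hsq : ∀ j, w j ^ 2 = w 0 ^ 2 := by
      have hnat : ∀ m : ℕ, w (m : ZMod n) ^ 2 = w 0 ^ 2 := by
        intro m
        induction m with
        | zero => rw [Nat.cast_zero]
        | succ m ih =>
          rw [Nat.cast_succ, hB w hw, neg_sq, ih]
      intro j
      have := hnat j.val
      rwa [ZMod.natCast_zmod_val] at this
    by_contra hne
    have hw0 : w 0 ≠ 0 := fun h => hne (hA w hw h)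
    have hwj : ∀ j, w j ≠ 0 := by
      intro j hj
      have := hsq j
      rw [hj] at this
      exact hw0 (pow_eq_zero_iff (two_ne_zero) |>.1 (by rw [← this]; ring))
    obtain ⟨s, g, hconv, hg, hc, hpos, hd⟩ := hdat 0
    obtain ⟨l, hnd, hmem, hlen, hpw⟩ := h5 (ZMod n) s (Finset.univ.erase 0)
      (fun i hi j hj hij => hc i j (Finset.ne_of_mem_erase hi) (Finset.ne_of_mem_erase hj) hij)
    have hne0 : ∀ i, i ∈ l ↔ i ≠ 0 := by
      intro i
      rw [hmem i, Finset.mem_erase]
      exact ⟨fun h => h.1, fun h => ⟨h, Finset.mem_univ i⟩⟩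
    rw [hcard 0] at hlen
    have hodd : Odd l.length := by rwa [hlen]
    have hadj : ∀ (l1 : List (ZMod n)) (x y : ZMod n) (l2 : List (ZMod n)),
        l = l1 ++ x :: y :: l2 → w y = - w x := by
      intro l1 x y l2 hl
      have hx : x ∈ l := by rw [hl]; simp
      have hy : y ∈ l := by rw [hl]; simp
      obtain ⟨α, β, hα, hβ, hab⟩ := (h4 (ZMod n) s (CIRC_v s g 0 w) l1 l2).2 x y
        (by rw [← hl]; exact hpw) (by rw [← hl]; exact hodd)
        (fun j hj => by
          rw [← hl, hne0, not_not] at hj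
          exact if_pos hj)
        (fun z hz => hd w hw z ((hne0 z).1 (by
          rw [hl]
          rcases List.mem_append.1 hz with hz | hz
          · exact List.mem_append_left _ hz
          · exact List.mem_append_right _ (List.mem_cons_of_mem _ (List.mem_cons_of_mem _ hz)))))
      have hvx : CIRC_v s g 0 w x = w x * g (s x) := if_neg ((hne0 x).1 hx)
      have hvy : CIRC_v s g 0 w y = w y * g (s y) := if_neg ((hne0 y).1 hy)
      rw [hvx, hvy] at hab
      have hgx := hpos x ((hne0 x).1 hx)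
      have hgy := hpos y ((hne0 y).1 hy)
      have hxy : w y ^ 2 = w x ^ 2 := by rw [hsq x, hsq y]
      rcases sq_eq_sq_iff_eq_or_eq_neg.1 hxy with h | h
      · exfalso
        rw [h] at hab
        have h9 : w x * (α * g (s x) + β * g (s y)) = 0 := by linear_combination hab
        rcases mul_eq_zero.1 h9 with h9 | h9
        · exact hwj x h9
        · have := mul_pos hα hgx
          have := mul_pos hβ hgy
          linarith
      · exact h
    obtain ⟨a, l', hl⟩ : ∃ a l', l = a :: l' := by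
      cases l with
      | nil =>
        rw [List.length_nil] at hodd
        exact absurd hodd (by decide)
      | cons a l' => exact ⟨a, l', rfl⟩
    have hS := h8 (ZMod n) s w g a l' (fun l1 x y l2 h => hadj l1 x y l2 (by rw [hl, h]))
    rw [← hl] at hS
    have hT := h7 g (l.map s) hconv (List.pairwise_map.2 hpw)
      (fun x hx => by
        obtain ⟨j, hj, rfl⟩ := List.mem_map.1 hx
        exact hpos j ((hne0 j).1 hj)) (by rw [List.length_map]; exact hodd)
    obtain ⟨c, R, hcR⟩ := hconc.Cospherical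
    have hR := h2 E (ZMod n) X c R (fun i => by
      rw [← dist_eq_norm]
      exact hcR _ (Set.mem_range_self i)) w (heq w hw) 0
    rw [← Finset.add_sum_erase Finset.univ _ (Finset.mem_univ (0 : ZMod n)), sub_self, norm_zero,
      inv_zero, mul_zero, zero_add] at hR
    have hl2 : (Finset.univ.erase (0 : ZMod n)) = l.toFinset := by
      ext i
      rw [List.mem_toFinset, hmem i]
    have hR2 : ∑ j ∈ Finset.univ.erase (0 : ZMod n), w j * ‖X j - X 0‖⁻¹ =
        ∑ j ∈ Finset.univ.erase (0 : ZMod n), w j * g (s j) :=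
      Finset.sum_congr rfl fun j hj => by rw [hg j (Finset.ne_of_mem_erase hj)]
    rw [hR2, hl2, List.sum_toFinset _ hnd, hS] at hR
    rcases mul_eq_zero.1 hR with h | h
    · exact hwj a h
    · exact hT.ne' h

end Pool.Agent.Lib.MP_c28bf6_an.LC
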