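import Pool.Agent.Lib.MP_c28bf6_an.LC.Stm

/-!
# Alternating charges
-/

set_option autoImplicit false

namespace Pool.Agent.Lib.MP_c28bf6_an.LC

theorem p_CSUM : S_CSUM := by
  intro ι s w g a l
  induction l generalizing a with
  | nil =>
    intro _
    simp [alt]
  | cons b l ih =>
    intro h
    have hb : w b = - w a := h [] a b l rfl
    have h1 := ih b (fun l1 x y l2 he => h (a :: l1) x y l2 (by rw [he]; rfl))
    rw [List.map_cons, List.sum_cons, h1, hb]
    change w a * g (s a) + -w a * alt g (List.map s (b :: l)) =
      w a * (g (s a) - alt g (List.map s (b :: l)))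
    ring

end Pool.Agent.Lib.MP_c28bf6_an.LC
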