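import Pool.Agent.Lib.MP_c28bf6_an.LC.Stm

/-!
# From derivatives to differences, one element at a time
-/

open Filter Topology

set_option autoImplicit false

namespace Pool.Agent.Lib.MP_c28bf6_an.LC

/-- the kernel as a function of the second argument -/
private lemma DIF_der_right (L : ℝ) (S : Finset ℝ) (c : ℝ → ℝ) (x : V) (l t : ℝ) :
    HasDerivAt (fun s => KS S c x (dd L (l, s))) (KS S c x (de L t)) t := by
  unfold KS dd de
  apply HasDerivAt.fun_sum
  intro a _
  have h1 : HasDerivAt (fun s : ℝ => -((a + L) * s)) (-(a + L)) t := by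
    have h := ((hasDerivAt_id t).const_mul (a + L)).fun_neg
    rw [mul_one] at h
    exact h
  have h2 := ((h1.exp).const_sub (Real.exp (-((a + L) * l)))).const_mul (c a * x.1 a)
  refine h2.congr_deriv ?_
  simp only
  ring

/-- the kernel as a function of the first argument -/
private lemma DIF_der_left (L : ℝ) (S : Finset ℝ) (c : ℝ → ℝ) (y : V) (l t : ℝ) :
    HasDerivAt (fun s => KS S c (dd L (l, s)) y) (KS S c (de L t) y) t := by
  unfold KS dd de
  apply HasDerivAt.fun_sum
  intro a _
  have h1 : HasDerivAt (fun s : ℝ => (a - L) * s) (a - L) t := by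
    have h := (hasDerivAt_id t).const_mul (a - L)
    rw [mul_one] at h
    exact h
  have h2 := (((h1.exp).const_sub (Real.exp ((a - L) * l))).const_mul (c a)).mul_const (y.2 a)
  refine h2.congr_deriv ?_
  simp only
  ring

theorem p_DIF (h1 : S_SLC) (h2 : S_DIFA) : S_DIF := by
  intro L S' hL h0 hpos c c' hc' hcc' zs ps
  obtain ⟨hadd, hder, -, -⟩ := h1
  induction ps generalizing zs with
  | nil =>
    intro hzs _ _ _
    have h := h2 L S' hL h0 hpos c c' hc' hcc' zs hzs
    simpa using h
  | cons p ps ih =>
    intro hzs hps hlt hle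
    obtain ⟨l, r⟩ := p
    obtain ⟨hp1, hp2⟩ := List.pairwise_cons.1 hps
    have hlr : l < r := hlt (l, r) (List.mem_cons_self)
    set S : Finset ℝ := insert L S' with hS
    let G : (ℝ → ℝ) → ℝ → ℝ := fun e s =>
      pf (KS S e) (zs.map (de L) ++ dd L (l, s) :: ps.map (dd L))
    let D : (ℝ → ℝ) → ℝ → ℝ := fun e s =>
      pf (KS S e) (zs.map (de L) ++ de L s :: ps.map (dd L))
    have hG0 : ∀ e, G e l = 0 := by
      intro e
      have hk1 : ∀ x : V, KS S e x (dd L (l, l)) = 0 := by
        intro x
        unfold KS dd
        simp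
      have hk2 : ∀ y : V, KS S e (dd L (l, l)) y = 0 := by
        intro y
        unfold KS dd
        simp
      have h := hadd V (KS S e) (zs.map (de L)) (ps.map (dd L)) (dd L (l, l)) (dd L (l, l))
        (dd L (l, l)) (fun x _ => by rw [hk1]; ring) (fun y _ => by rw [hk2]; ring)
      show pf (KS S e) (zs.map (de L) ++ dd L (l, l) :: ps.map (dd L)) = 0
      linarith
    have hGD : ∀ e s, HasDerivAt (G e) (D e s) s := by
      intro e s
      exact hder V (KS S e) (zs.map (de L)) (ps.map (dd L)) (fun s => dd L (l, s)) (de L s) s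
        (fun x _ => DIF_der_right L S e x l s) (fun y _ => DIF_der_left L S e y l s)
    have hD : ∀ s ∈ Set.Ioo l r, 0 ≤ D c' s ∧ D c' s ≤ D c s := by
      intro s hs
      have h := ih (zs ++ [s]) ?_ hp2 (fun p hp => hlt p (List.mem_cons_of_mem _ hp)) ?_
      · have e1 : ∀ e, pf (KS S e) ((zs ++ [s]).map (de L) ++ ps.map (dd L)) = D e s := by
          intro e
          show _ = pf (KS S e) (zs.map (de L) ++ de L s :: ps.map (dd L))
          rw [List.map_append, List.append_assoc]
          rfl
        rw [e1, e1] at h
        exact h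
      · rw [List.pairwise_append]
        refine ⟨hzs, List.pairwise_singleton _ _, ?_⟩
        intro a ha b hb
        rw [List.mem_singleton] at hb
        rw [hb]
        exact lt_of_le_of_lt (hle a ha (l, r) List.mem_cons_self) hs.1
      · intro z hz p hp
        rcases List.mem_append.1 hz with h3 | h3
        · exact hle z h3 p (List.mem_cons_of_mem _ hp)
        · rw [List.mem_singleton] at h3
          rw [h3]
          exact hs.2.le.trans (hp1 p hp)
    have hcont : ∀ e, Continuous (G e) := fun e =>
      continuous_iff_continuousAt.2 fun s => (hGD e s).continuousAt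
    have hl : l ∈ Set.Icc l r := Set.left_mem_Icc.2 hlr.le
    have hr : r ∈ Set.Icc l r := Set.right_mem_Icc.2 hlr.le
    have m1 : MonotoneOn (G c') (Set.Icc l r) := by
      apply monotoneOn_of_deriv_nonneg (convex_Icc l r) (hcont c').continuousOn
      · exact fun s _ => (hGD c' s).differentiableAt.differentiableWithinAt
      · intro s hs
        rw [interior_Icc] at hs
        rw [(hGD c' s).deriv]
        exact (hD s hs).1
    have m2 : MonotoneOn (fun s => G c s - G c' s) (Set.Icc l r) := by
      apply monotoneOn_of_deriv_nonneg (convex_Icc l r) ((hcont c).sub (hcont c')).continuousOn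
      · exact fun s _ => ((hGD c s).sub (hGD c' s)).differentiableAt.differentiableWithinAt
      · intro s hs
        rw [interior_Icc] at hs
        have h3 := ((hGD c s).sub (hGD c' s)).deriv
        have h4 : deriv (G c - G c') s = D c s - D c' s := h3
        rw [h4]
        linarith [(hD s hs).2]
    have h5 := m1 hl hr hlr.le
    have h6 := m2 hl hr hlr.le
    simp only [hG0] at h5 h6
    have e2 : ∀ e, pf (KS S e) (zs.map (de L) ++ ((l, r) :: ps).map (dd L)) = G e r :=
      fun e => rfl
    rw [e2, e2]
    exact ⟨h5, by linarith⟩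

end Pool.Agent.Lib.MP_c28bf6_an.LC
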