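import Pool.Agent.Lib.MP_c28bf6_an.LC.Stm

/-!
# Derivatives at points: the top exponent drops out
-/

set_option autoImplicit false

namespace Pool.Agent.Lib.MP_c28bf6_an.LC

private lemma DIFA_ker (L : ℝ) (S' : Finset ℝ) (hL : ∀ s ∈ S', s < L) (c : ℝ → ℝ) (a b : ℝ) :
    KS (insert L S') c (de L a) (de L b) =
      Real.exp (-(L * a)) * Real.exp (-(L * b)) * KE S' (fun s => c s * (L ^ 2 - s ^ 2)) a b := by
  have hn : L ∉ S' := fun h => lt_irrefl _ (hL L h)
  unfold KS KE de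
  rw [Finset.sum_insert hn, Finset.mul_sum]
  simp only [sub_self, zero_mul, mul_zero, zero_add]
  refine Finset.sum_congr rfl fun s _ => ?_
  have e : Real.exp ((s - L) * a) * Real.exp (-((s + L) * b)) =
      Real.exp (-(L * a)) * Real.exp (-(L * b)) * Real.exp (s * (a - b)) := by
    rw [← Real.exp_add, ← Real.exp_add, ← Real.exp_add]
    congr 1
    ring
  linear_combination (c s * (L - s) * (L + s)) * e

private lemma DIFA_pf (h : S_ALG) (L : ℝ) (S' : Finset ℝ) (hL : ∀ s ∈ S', s < L) (c : ℝ → ℝ)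
    (zs : List ℝ) :
    pf (KS (insert L S') c) (zs.map (de L)) =
      (zs.map (fun z => Real.exp (-(L * z)))).prod *
        pf (KE S' (fun s => c s * (L ^ 2 - s ^ 2))) zs := by
  rw [h.2.1 V ℝ (de L) (KS (insert L S') c) zs,
    ← h.2.2 ℝ (fun z => Real.exp (-(L * z))) (KE S' (fun s => c s * (L ^ 2 - s ^ 2))) zs]
  congr 1
  funext a b
  exact DIFA_ker L S' hL c a b

theorem p_DIFA (h : S_ALG) : S_DIFA := by
  intro L S' hL h0 hPos c c' hc' hcc zs hzs
  rw [DIFA_pf h L S' hL c' zs, DIFA_pf h L S' hL c zs]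
  have hf : ∀ s ∈ S', 0 ≤ L ^ 2 - s ^ 2 := by
    intro s hs
    have h1 := hL s hs
    have h2 := h0 s hs
    nlinarith
  obtain ⟨h1, h2⟩ := hPos (fun s => c s * (L ^ 2 - s ^ 2)) (fun s => c' s * (L ^ 2 - s ^ 2))
    (fun s hs => mul_nonneg (hc' s (Finset.mem_insert_of_mem hs)) (hf s hs))
    (fun s hs => mul_le_mul_of_nonneg_right (hcc s (Finset.mem_insert_of_mem hs)) (hf s hs)) zs hzs
  have h3 : 0 ≤ (zs.map (fun z => Real.exp (-(L * z)))).prod := by
    apply List.prod_nonneg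
    intro x hx
    obtain ⟨z, -, rfl⟩ := List.mem_map.1 hx
    exact (Real.exp_pos _).le
  exact ⟨mul_nonneg h3 h1, mul_le_mul_of_nonneg_left h2 h3⟩

end Pool.Agent.Lib.MP_c28bf6_an.LC
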