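import Pool.Agent.Lib.MP_c28bf6_an.LC.Stm

/-!
# Line and circle theorem for choreographies, piece FIN
-/

set_option autoImplicit false

namespace Pool.Agent.Lib.MP_c28bf6_an.LC

theorem p_FIN (h1 : S_LINE) (h2 : S_CIRC) : S_FIN := by
  intro E _ _ n m x T h t hX i j
  obtain _ | k := n
  · exact i.elim0
  · have hc := h.core
    have hinj : Function.Injective (fun j : ZMod (k + 1) => bodyZ k x T j t) := fun a b hab => by
      by_contra hne
      exact hc.nocol t a b hne hab
    have hall : ∀ w ∈ Core.W (k + 1) (fun j : ZMod (k + 1) => m j), w = 0 := by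
      rcases hX with hX | hX
      · exact h1 E (k + 1) (Core.W (k + 1) (fun j : ZMod (k + 1) => m j))
          (fun j : ZMod (k + 1) => bodyZ k x T j t) hinj (fun w hw => Core.W_shift hw 1)
          (fun w hw => Core.sum_W hw) (fun w hw i => hc.equil_W hw t i) hX
      · exact h2 E (k + 1) (Core.W (k + 1) (fun j : ZMod (k + 1) => m j))
          (fun j : ZMod (k + 1) => bodyZ k x T j t) hinj (fun w hw => Core.W_shift hw 1)
          (fun w hw => Core.sum_W hw) (fun w hw i => hc.equil_W hw t i) hX
    have key : ∀ a b : ZMod (k + 1), m a = m b := by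
      intro a b
      have h3 := hall _ (Core.diff_mem (μ := fun j : ZMod (k + 1) => m j) (a - b))
      have h4 := congrFun h3 b
      simp only [Pi.zero_apply] at h4
      have h5 : b + (a - b) = a := by ring
      rw [h5] at h4
      linarith
    exact key i j

end Pool.Agent.Lib.MP_c28bf6_an.LC
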