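import Pool.Agent.Lib.MP_c28bf6_an.LC.Stm

/-!
# Line and circle theorem: [GEO] inversion maps a circle through the centre to a line
-/

set_option autoImplicit false

namespace Pool.Agent.Lib.MP_c28bf6_an.LC

theorem GEO_inner {E : Type} [NormedAddCommGroup E] [InnerProductSpace ℝ E] (x x₀ c : E) (R : ℝ)
    (h : dist x c = R) (h₀ : dist x₀ c = R) (hne : x ≠ x₀) :
    inner ℝ (c - x₀) ((‖x - x₀‖ ^ 2)⁻¹ • (x - x₀)) = 1 / 2 := by
  have h1 : ‖(x - x₀) - (c - x₀)‖ = ‖c - x₀‖ := by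
    rw [sub_sub_sub_cancel_right, ← dist_eq_norm, h, ← dist_eq_norm, dist_comm, h₀]
  have h2 := norm_sub_sq_real (x - x₀) (c - x₀)
  rw [h1] at h2
  have h3 : ‖x - x₀‖ ^ 2 ≠ 0 := by
    have : x - x₀ ≠ 0 := sub_ne_zero.2 hne
    positivity
  have h4 : inner ℝ (x - x₀) (c - x₀) = ‖x - x₀‖ ^ 2 / 2 := by linarith
  rw [inner_smul_right, real_inner_comm, h4, ← mul_div_assoc, inv_mul_cancel₀ h3]

theorem p_GEO : S_GEO := by
  intro E _ _ ι X k hX hcon
  obtain ⟨⟨c, R, hc⟩, hpl⟩ := hcon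
  by_cases hex : ∃ j₀, j₀ ≠ k
  swap
  · refine ⟨0, 0, fun _ => 0, fun j hj => absurd ⟨j, hj⟩ hex⟩
  obtain ⟨j₀, hj₀⟩ := hex
  have hfd : FiniteDimensional ℝ (vectorSpan ℝ (Set.range X)) := hpl.finiteDimensional_vectorSpan
  have hrk : Module.finrank ℝ (vectorSpan ℝ (Set.range X)) ≤ 2 := coplanar_iff_finrank_le_two.1 hpl
  have hmem : ∀ j, iv X k j ∈ vectorSpan ℝ (Set.range X) := by
    intro j
    unfold iv
    exact Submodule.smul_mem _ _ (vsub_mem_vectorSpan ℝ (Set.mem_range_self j)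
      (Set.mem_range_self k))
  have hin : ∀ j, j ≠ k → inner ℝ (c - X k) (iv X k j) = 1 / 2 := by
    intro j hj
    exact GEO_inner (X j) (X k) c R (hc _ (Set.mem_range_self j)) (hc _ (Set.mem_range_self k))
      (fun h => hj (hX h))
  let φ : vectorSpan ℝ (Set.range X) →ₗ[ℝ] ℝ :=
    (innerₗ E (c - X k)).comp (vectorSpan ℝ (Set.range X)).subtype
  have hφ : ∀ v, φ v = inner ℝ (c - X k) (v : E) := fun _ => rfl
  have hφ0 : φ ≠ 0 := by
    intro h
    have h1 : φ ⟨iv X k j₀, hmem j₀⟩ = 1 / 2 := hin j₀ hj₀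
    rw [h, LinearMap.zero_apply] at h1
    norm_num at h1
  have hker : Module.finrank ℝ (LinearMap.ker φ) ≤ 1 := by
    have := Module.Dual.finrank_ker_add_one_of_ne_zero (f := φ) hφ0
    omega
  obtain ⟨v, hv⟩ := finrank_le_one_iff.1 hker
  have hs : ∀ j, ∃ s : ℝ, j ≠ k → iv X k j = iv X k j₀ + s • ((v : vectorSpan ℝ (Set.range X)) : E) := by
    intro j
    by_cases hj : j = k
    · exact ⟨0, fun h => absurd hj h⟩
    have hk : (⟨iv X k j, hmem j⟩ - ⟨iv X k j₀, hmem j₀⟩ : vectorSpan ℝ (Set.range X)) ∈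
        LinearMap.ker φ := by
      rw [LinearMap.mem_ker, map_sub, hφ, hφ]
      change inner ℝ (c - X k) (iv X k j) - inner ℝ (c - X k) (iv X k j₀) = 0
      rw [hin j hj, hin j₀ hj₀, sub_self]
    obtain ⟨s, hs⟩ := hv ⟨_, hk⟩
    refine ⟨s, fun _ => ?_⟩
    have h1 : s • ((v : vectorSpan ℝ (Set.range X)) : E) = iv X k j - iv X k j₀ :=
      congrArg (fun z : LinearMap.ker φ => ((z : vectorSpan ℝ (Set.range X)) : E)) hs
    rw [h1, add_sub_cancel]
  choose s hs using hs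
  exact ⟨iv X k j₀, _, s, hs⟩

end Pool.Agent.Lib.MP_c28bf6_an.LC
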