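import Pool.Agent.Lib.MP_c28bf6_an.LC.Stm

/-!
# LADJ: Pfaffians and charges in equilibrium on a line
-/

set_option autoImplicit false

namespace Pool.Agent.Lib.MP_c28bf6_an.LC

theorem LADJ_pos (h1 : S_ALG) (h2 : S_PP) {ι : Type} (s : ι → ℝ) (l : List ι)
    (hl : l.Pairwise (fun i j => s i < s j)) (he : Even l.length) :
    0 < pf (fun i j => phi (s j - s i)) l := by
  have e1 : pf (fun i j => phi (s j - s i)) l = pf (fun i j => ((s j - s i) ^ 2)⁻¹) l := by
    apply h1.1
    refine hl.imp ?_
    intro a b hab
    rw [phi_of_pos (by linarith), one_div]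
  have e2 := h1.2.1 ℝ ι s (fun a b => ((b - a) ^ 2)⁻¹) l
  rw [e1, ← e2]
  apply h2
  · rw [List.pairwise_map]
    exact hl
  · rw [List.length_map]
    exact he

theorem p_LADJ (h1 : S_ALG) (h2 : S_PP) (h3 : S_SLC) (h4 : S_ALT) : S_LADJ := by
  intro ι _ s w l1 l2
  have hanti : ∀ a b : ι, phi (s b - s a) = -phi (s a - s b) := by
    intro a b
    rw [← phi_neg, neg_sub]
  refine ⟨?_, ?_⟩
  · intro i hp he hw hx
    have hsum := h3.2.2.2 ι (fun i j => phi (s j - s i)) w l1 l2 hanti hx
    rw [Finset.sum_eq_single i] at hsum
    · have hpos := LADJ_pos h1 h2 s _ hp he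
      rcases mul_eq_zero.1 hsum with h | h
      · exact h
      · exact absurd h hpos.ne'
    · intro j _ hj
      by_cases hj1 : j ∈ l1 ∨ j ∈ l2
      · rw [h4 ι _ l1 l2 j hanti hj1, mul_zero]
      · rw [hw j, zero_mul]
        intro hmem
        rcases List.mem_append.1 hmem with h | h
        · exact hj1 (Or.inl h)
        · rcases List.mem_cons.1 h with h | h
          · exact hj h
          · exact hj1 (Or.inr h)
    · intro h
      exact absurd (Finset.mem_univ i) h
  · intro a b hp ho hw hx
    have hsum := h3.2.2.2 ι (fun i j => phi (s j - s i)) w l1 l2 hanti hx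
    have hsa : (l1 ++ a :: l2).Sublist (l1 ++ a :: b :: l2) :=
      (List.Sublist.refl l1).append ((List.sublist_cons_self b l2).cons_cons a)
    have hsb : (l1 ++ b :: l2).Sublist (l1 ++ a :: b :: l2) :=
      (List.Sublist.refl l1).append (List.sublist_cons_self a (b :: l2))
    have hab : a ≠ b := by
      have h5 : (a :: b :: l2).Pairwise (fun i j => s i < s j) := (List.pairwise_append.1 hp).2.1
      have h6 : s a < s b := (List.pairwise_cons.1 h5).1 b (by simp)
      rintro rfl
      exact lt_irrefl _ h6
    have hea : Even (l1 ++ a :: l2).length := by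
      have h7 : (l1 ++ a :: b :: l2).length = (l1 ++ a :: l2).length + 1 := by
        simp only [List.length_append, List.length_cons]
        omega
      rw [h7, Nat.odd_add_one, Nat.not_odd_iff_even] at ho
      exact ho
    have heb : Even (l1 ++ b :: l2).length := by
      have h8 : (l1 ++ b :: l2).length = (l1 ++ a :: l2).length := by
        simp only [List.length_append, List.length_cons]
      rw [h8]
      exact hea
    refine ⟨_, _, LADJ_pos h1 h2 s _ (hp.sublist hsa) hea, LADJ_pos h1 h2 s _ (hp.sublist hsb) heb,
      ?_⟩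
    rw [Finset.sum_eq_add a b hab] at hsum
    · linarith
    · intro j _ hj
      by_cases hj1 : j ∈ l1 ∨ j ∈ l2
      · rw [h4 ι _ l1 l2 j hanti hj1, mul_zero]
      · rw [hw j, zero_mul]
        intro hmem
        rcases List.mem_append.1 hmem with h | h
        · exact hj1 (Or.inl h)
        · rcases List.mem_cons.1 h with h | h
          · exact hj.1 h
          · rcases List.mem_cons.1 h with h | h
            · exact hj.2 h
            · exact hj1 (Or.inr h)
    · intro h
      exact absurd (Finset.mem_univ a) h
    · intro h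
      exact absurd (Finset.mem_univ b) h

end Pool.Agent.Lib.MP_c28bf6_an.LC
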