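import Pool.Agent.Lib.MP_c28bf6_an.LC.Stm

/-!
# A lower bound that does not depend on the kernel
-/

set_option autoImplicit false

namespace Pool.Agent.Lib.MP_c28bf6_an.LC

/-- the kernel with the large exponents removed -/
lemma LBD_filter (L0 : ℝ) (S : Finset ℝ) (c : ℝ → ℝ) :
    KE S (fun s => if s ≤ L0 then c s else 0) = KE (S.filter (· ≤ L0)) c := by
  funext a b
  unfold KE
  rw [Finset.sum_filter]
  apply Finset.sum_congr rfl
  intro s _
  beta_reduce
  by_cases h : s ≤ L0
  · rw [if_pos h, if_pos h]
  · rw [if_neg h, if_neg h, zero_mul]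

theorem p_LBD (h : S_POS) : S_LBD := by
  intro L0 ys
  induction hn : ys.length using Nat.strong_induction_on generalizing ys with
  | _ n ih =>
    intro hys hev
    match ys, hn, hys with
    | [], _, _ => exact ⟨1, one_pos, fun S c _ _ _ => by simp⟩
    | [a], hn, _ =>
      simp only [List.length_cons, List.length_nil] at hn
      rw [← hn] at hev
      exact absurd hev (by decide)
    | a :: b :: R, hn, hys =>
      simp only [List.length_cons] at hn
      have hR : R.Pairwise (· < ·) := (List.pairwise_cons.1 (List.pairwise_cons.1 hys).2).2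
      have hab : a < b := (List.pairwise_cons.1 hys).1 b List.mem_cons_self
      have hevR : Even R.length := by
        rw [← hn] at hev
        rw [Nat.even_iff] at hev ⊢
        omega
      obtain ⟨δ, hδ, hb⟩ := ih R.length (by omega) R rfl hR hevR
      refine ⟨Real.exp (-(L0 * (b - a))) * δ, by positivity, ?_⟩
      intro S c hS hc hsum
      obtain ⟨S0, hS0⟩ : ∃ S0, S0 = S.filter (· ≤ L0) := ⟨_, rfl⟩
      have hS0pos : ∀ s ∈ S0, 0 < s := fun s hs => by
        rw [hS0] at hs
        exact hS s (Finset.mem_filter.1 hs).1
      have hS0c : ∀ s ∈ S0, 0 ≤ c s := fun s hs => by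
        rw [hS0] at hs
        exact hc s (Finset.mem_filter.1 hs).1
      have hne : S0.Nonempty := by
        rw [Finset.nonempty_iff_ne_empty]
        intro h0
        rw [← hS0, h0, Finset.sum_empty] at hsum
        linarith
      have e1 := ((h S hS).1 c (fun s => if s ≤ L0 then c s else 0) (fun s hs => by
        by_cases hs' : s ≤ L0
        · simp only [if_pos hs']; exact hc s hs
        · simp only [if_neg hs']; exact le_rfl) (fun s hs => by
        by_cases hs' : s ≤ L0
        · simp only [if_pos hs']; exact le_rfl
        · simp only [if_neg hs']; exact hc s hs) (a :: b :: R) hys).2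
      rw [LBD_filter, ← hS0] at e1
      refine le_trans ?_ e1
      have hmem := Finset.max'_mem S0 hne
      have hLle : S0.max' hne ≤ L0 := by
        have h5 : S0.max' hne ∈ S.filter (· ≤ L0) := by
          rw [← hS0]
          exact hmem
        exact (Finset.mem_filter.1 h5).2
      have e2 := (h S0 hS0pos).2 (S0.max' hne) hmem (fun s hs => Finset.le_max' S0 s hs) c hS0c
        a b R hys
      refine le_trans ?_ e2
      have e3 : δ ≤ pf (KE S0 c) R := by
        apply hb S0 c hS0pos hS0c
        have h6 : S0.filter (· ≤ L0) = S0 := by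
          rw [hS0, Finset.filter_filter]
          congr 1
          funext s
          simp
        rw [h6, hS0]
        exact hsum
      rw [← hS0] at hsum
      have e4 : Real.exp (-(L0 * (b - a))) ≤ Real.exp (-(S0.max' hne * (b - a))) := by
        apply Real.exp_le_exp.2
        have : S0.max' hne * (b - a) ≤ L0 * (b - a) :=
          mul_le_mul_of_nonneg_right hLle (by linarith)
        linarith
      have e5 : 0 < Real.exp (-(S0.max' hne * (b - a))) := Real.exp_pos _
      calc Real.exp (-(L0 * (b - a))) * δ
          ≤ Real.exp (-(S0.max' hne * (b - a))) * δ := mul_le_mul_of_nonneg_right e4 hδ.le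
        _ ≤ Real.exp (-(S0.max' hne * (b - a))) * (∑ s ∈ S0, c s) * δ := by
            apply mul_le_mul_of_nonneg_right _ hδ.le
            nlinarith
        _ ≤ Real.exp (-(S0.max' hne * (b - a))) * (∑ s ∈ S0, c s) * pf (KE S0 c) R := by
            apply mul_le_mul_of_nonneg_left e3
            have : 0 ≤ ∑ s ∈ S0, c s := by linarith
            positivity

end Pool.Agent.Lib.MP_c28bf6_an.LC
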