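import Pool.Agent.Lib.MP_c28bf6_an.LC.Stm

/-!
# The data of the line obtained from a circle
-/

set_option autoImplicit false

namespace Pool.Agent.Lib.MP_c28bf6_an.LC

variable {E ι : Type} [NormedAddCommGroup E] [InnerProductSpace ℝ E]

lemma LDAT_norm (X : ι → E) (hX : Function.Injective X) (k j : ι) (hj : j ≠ k) :
    ‖iv X k j‖ = ‖X j - X k‖⁻¹ := by
  have h1 : ‖X j - X k‖ ≠ 0 := by
    rw [norm_ne_zero_iff, sub_ne_zero]
    exact fun h => hj (hX h)
  rw [iv, norm_smul, norm_inv, norm_pow, norm_norm]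
  field_simp

lemma LDAT_inj (X : ι → E) (hX : Function.Injective X) (k i j : ι) (hi : i ≠ k) (hj : j ≠ k)
    (h : iv X k i = iv X k j) : i = j := by
  have h1 := LDAT_norm X hX k i hi
  have h2 := LDAT_norm X hX k j hj
  rw [h, h2] at h1
  have h3 : ‖X j - X k‖ = ‖X i - X k‖ := inv_injective h1
  have h4 : ‖X i - X k‖ ≠ 0 := by
    rw [norm_ne_zero_iff, sub_ne_zero]
    exact fun h => hi (hX h)
  rw [iv, iv, h3] at h
  have h5 : X i - X k = X j - X k := by
    have h6 : ((‖X i - X k‖ ^ 2)⁻¹ : ℝ) ≠ 0 := inv_ne_zero (pow_ne_zero 2 h4)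
    exact smul_right_injective E h6 h
  exact hX (sub_left_injective h5)

lemma LDAT_conv (p u : E) (x y z : ℝ) (hxy : x < y) (hyz : y < z) :
    ‖p + y • u‖ ≤ max ‖p + x • u‖ ‖p + z • u‖ := by
  have hxz : 0 < z - x := by linarith
  have ha : 0 ≤ (z - y) / (z - x) := div_nonneg (by linarith) hxz.le
  have hb : 0 ≤ (y - x) / (z - x) := div_nonneg (by linarith) hxz.le
  have hab : (z - y) / (z - x) + (y - x) / (z - x) = 1 := by
    rw [← add_div]
    rw [show z - y + (y - x) = z - x by ring]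
    exact div_self hxz.ne'
  have hy : (z - y) / (z - x) * x + (y - x) / (z - x) * z = y := by
    field_simp
    ring
  have e : p + y • u = ((z - y) / (z - x)) • (p + x • u) + ((y - x) / (z - x)) • (p + z • u) := by
    have e1 : p = ((z - y) / (z - x)) • p + ((y - x) / (z - x)) • p := by
      rw [← add_smul, hab, one_smul]
    have e2 : y • u = ((z - y) / (z - x)) • x • u + ((y - x) / (z - x)) • z • u := by
      rw [smul_smul, smul_smul, ← add_smul, hy]
    rw [smul_add, smul_add]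
    calc p + y • u = (((z - y) / (z - x)) • p + ((y - x) / (z - x)) • p) +
          (((z - y) / (z - x)) • x • u + ((y - x) / (z - x)) • z • u) := by rw [← e1, ← e2]
      _ = _ := by abel
  rw [e]
  calc _ ≤ ‖((z - y) / (z - x)) • (p + x • u)‖ + ‖((y - x) / (z - x)) • (p + z • u)‖ :=
        norm_add_le _ _
    _ = (z - y) / (z - x) * ‖p + x • u‖ + (y - x) / (z - x) * ‖p + z • u‖ := by
        rw [norm_smul, norm_smul, Real.norm_of_nonneg ha, Real.norm_of_nonneg hb]
    _ ≤ (z - y) / (z - x) * max ‖p + x • u‖ ‖p + z • u‖ +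
          (y - x) / (z - x) * max ‖p + x • u‖ ‖p + z • u‖ :=
        add_le_add (mul_le_mul_of_nonneg_left (le_max_left _ _) ha)
          (mul_le_mul_of_nonneg_left (le_max_right _ _) hb)
    _ = max ‖p + x • u‖ ‖p + z • u‖ := by rw [← add_mul, hab, one_mul]

theorem p_LDAT (h1 : S_RAD) (h2 : S_INV) (h3 : S_GEO) : S_LDAT := by
  intro E _ _ ι _ _ X k hX hcon
  obtain ⟨p, u, s, hs⟩ := h3 E ι X k hX hcon
  have hinj : ∀ i j, i ≠ k → j ≠ k → s i = s j → i = j := by
    intro i j hi hj hij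
    refine LDAT_inj X hX k i j hi hj ?_
    rw [hs i hi, hs j hj, hij]
  have hg : ∀ j, j ≠ k → ‖p + s j • u‖ = ‖X j - X k‖⁻¹ := by
    intro j hj
    rw [← hs j hj]
    exact LDAT_norm X hX k j hj
  refine ⟨s, fun x => ‖p + x • u‖, fun x y z => LDAT_conv p u x y z, hg, hinj, ?_⟩
  intro w hw i hi
  obtain ⟨c, R, hR⟩ := hcon.Cospherical
  have hrad : ∀ i, ‖X i - c‖ = R := fun i => by
    rw [← dist_eq_norm]
    exact hR (X i) ⟨i, rfl⟩
  have h4 := h2 E ι X k w hX hw (h1 E ι X c R hrad w hw) i hi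
  have h5 : ∑ j ∈ Finset.univ.erase k, (w j * ‖X j - X k‖⁻¹) • force (iv X k j - iv X k i) =
      (∑ j ∈ Finset.univ.erase k, w j * ‖p + s j • u‖ * phi (s j - s i)) • force u := by
    rw [Finset.sum_smul]
    refine Finset.sum_congr rfl fun j hj => ?_
    have hjk : j ≠ k := Finset.ne_of_mem_erase hj
    have h6 : iv X k j - iv X k i = (s j - s i) • u := by
      rw [hs j hjk, hs i hi, sub_smul]
      abel
    rw [h6, force_smul_phi, smul_smul, hg j hjk]
  rw [h5, smul_eq_zero] at h4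
  rcases h4 with h4 | h4
  · exact h4
  · have hu : u = 0 := by
      by_contra hu
      exact force_ne_zero hu h4
    refine Finset.sum_eq_zero fun j hj => ?_
    have hjk : j ≠ k := Finset.ne_of_mem_erase hj
    have hji : j = i := by
      refine LDAT_inj X hX k j i hjk hi ?_
      rw [hs j hjk, hs i hi, hu, smul_zero, smul_zero]
    rw [hji, sub_self]
    simp [phi]

end Pool.Agent.Lib.MP_c28bf6_an.LC
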