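import Pool.Agent.Lib.MP_c28bf6_an.LC.Stm

/-!
# Piece LINE: the collinear case
-/

set_option autoImplicit false

namespace Pool.Agent.Lib.MP_c28bf6_an.LC

/-- a sequence on `ZMod n`, `n` odd, that changes its sign under the shift is zero -/
lemma LINE_alt (n : ℕ) [NeZero n] (hn : Odd n) (w : ZMod n → ℝ)
    (h : ∀ j, w (j + 1) = - w j) : w 0 = 0 := by
  have h1 : ∀ k : ℕ, w (k : ZMod n) = (-1) ^ k * w 0 := by
    intro k
    induction k with
    | zero => simp
    | succ k ih =>
      rw [Nat.cast_succ, h, ih, pow_succ]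
      ring
  have h2 := h1 n
  rw [ZMod.natCast_self, hn.neg_one_pow] at h2
  linarith

/-- the forces on a line -/
lemma LINE_eq (E : Type) [NormedAddCommGroup E] [InnerProductSpace ℝ E] (n : ℕ) [NeZero n]
    (X : ZMod n → E) (s : ZMod n → ℝ) (u : E) (hu : u ≠ 0)
    (hX : ∀ i j, X j - X i = (s j - s i) • u) (w : ZMod n → ℝ)
    (hw : ∀ i, ∑ j, w j • force (X j - X i) = 0) (i : ZMod n) :
    ∑ j, w j * phi (s j - s i) = 0 := by
  have h1 := hw i
  have h2 : ∑ j, w j • force (X j - X i) = (∑ j, w j * phi (s j - s i)) • force u := by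
    rw [Finset.sum_smul]
    refine Finset.sum_congr rfl fun j _ => ?_
    rw [hX i j, force_smul_phi, smul_smul]
  rw [h2] at h1
  exact (smul_eq_zero.1 h1).resolve_right (force_ne_zero hu)

theorem p_LINE (h1 : S_LKER) (h2 : S_RHO) : S_LINE := by
  intro E _ _ n _ W X hX hshift hsum hforce hcol w hw
  rcases Nat.lt_or_ge 1 n with hn | hn
  · obtain ⟨p, u, hpu⟩ := (collinear_iff_exists_forall_eq_smul_vadd (Set.range X)).1 hcol
    have hex : ∀ j, ∃ r : ℝ, X j = r • u +ᵥ p := fun j => hpu (X j) (Set.mem_range_self j)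
    choose s hs using hex
    have hu : u ≠ 0 := by
      intro hu0
      have : Fact (1 < n) := ⟨hn⟩
      have h3 : X 0 = X 1 := by rw [hs 0, hs 1, hu0, smul_zero, smul_zero]
      exact zero_ne_one (hX h3)
    have hinj : ∀ i j, s i = s j → i = j := by
      intro i j hij
      apply hX
      rw [hs i, hs j, hij]
    have hdiff : ∀ i j, X j - X i = (s j - s i) • u := by
      intro i j
      rw [hs i, hs j, vadd_eq_add, vadd_eq_add, sub_smul]
      abel
    have hker : ∀ v ∈ W, (Even n → ∀ i, v i = 0) ∧ (Odd n → v 0 = 0 → ∀ j, v j = 0) := by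
      intro v hv
      have h3 := h1 (ZMod n) s v Finset.univ (fun i _ j _ hij => hinj i j hij)
        (fun i hi => absurd (Finset.mem_univ i) hi)
        (fun i _ => LINE_eq E n X s u hu hdiff v (hforce v hv) i)
      rw [Finset.card_univ, ZMod.card] at h3
      exact ⟨h3.1, fun ho h0 => h3.2 ho 0 (Finset.mem_univ _) h0⟩
    rcases Nat.even_or_odd n with he | ho
    · funext j
      exact (hker w hw).1 he j
    · have h4 : ∀ v ∈ W, ∀ j, v (j + 1) = - v j :=
        h2 n W hshift hsum (fun v hv h0 => funext fun j => (hker v hv).2 ho h0 j)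
      funext j
      exact (hker w hw).2 ho (LINE_alt n ho w (h4 w hw)) j
  · have hn1 : n = 1 := by
      have := NeZero.pos n
      omega
    subst hn1
    have h3 := hsum w hw
    funext j
    have hsub : ∀ i : ZMod 1, i = j := fun i => Subsingleton.elim i j
    have h4 : ∑ i, w i = w j := by
      rw [Finset.sum_eq_single_of_mem j (Finset.mem_univ j) (fun b _ hb => absurd (hsub b) hb)]
    rw [h4] at h3
    exact h3

end Pool.Agent.Lib.MP_c28bf6_an.LC
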