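import Pool.Agent.Lib.MP_c28bf6_an.LC.Stm

/-!
# LC, piece LKER: charges in equilibrium on a line
-/

set_option autoImplicit false

namespace Pool.Agent.Lib.MP_c28bf6_an.LC

theorem LKER_even (h1 : S_SORT) (h2 : S_LADJ) (ι : Type) [Fintype ι] [DecidableEq ι] (s w : ι → ℝ)
    (T : Finset ι) (hinj : ∀ i ∈ T, ∀ j ∈ T, s i = s j → i = j) (hw : ∀ i, i ∉ T → w i = 0)
    (heq : ∀ i ∈ T, ∑ j, w j * phi (s j - s i) = 0) (hT : Even T.card) (i : ι) : w i = 0 := by
  by_cases hi : i ∈ T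
  · obtain ⟨l, _, hmem, hlen, hpair⟩ := h1 ι s T hinj
    obtain ⟨l1, l2, rfl⟩ := List.append_of_mem ((hmem i).2 hi)
    refine (h2 ι s w l1 l2).1 i hpair ?_ ?_ ?_
    · rw [hlen]
      exact hT
    · intro j hj
      exact hw j fun hjT => hj ((hmem j).2 hjT)
    · intro x hx
      apply heq x
      rw [← hmem x]
      rw [List.mem_append] at hx ⊢
      rcases hx with h | h
      · exact Or.inl h
      · exact Or.inr (List.mem_cons_of_mem _ h)
  · exact hw i hi

theorem p_LKER (h1 : S_SORT) (h2 : S_LADJ) : S_LKER := by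
  intro ι _ _ s w T hinj hw heq
  refine ⟨fun hT i => LKER_even h1 h2 ι s w T hinj hw heq hT i, fun hT i hi hwi j => ?_⟩
  refine LKER_even h1 h2 ι s w (T.erase i) ?_ ?_ ?_ ?_ j
  · intro a ha b hb hab
    exact hinj a (Finset.mem_of_mem_erase ha) b (Finset.mem_of_mem_erase hb) hab
  · intro a ha
    by_cases hai : a = i
    · rw [hai]
      exact hwi
    · exact hw a fun haT => ha (Finset.mem_erase.2 ⟨hai, haT⟩)
  · intro a ha
    exact heq a (Finset.mem_of_mem_erase ha)
  · rw [Finset.card_erase_of_mem hi]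
    obtain ⟨k, hk⟩ := hT
    exact ⟨k, by omega⟩

end Pool.Agent.Lib.MP_c28bf6_an.LC
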