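import Pool.Agent.Lib.MP_c28bf6_an.LC.Stm

/-!
# From differences to points
-/

open Filter Topology

set_option autoImplicit false

namespace Pool.Agent.Lib.MP_c28bf6_an.LC

lemma MIX_lim (L : ℝ) (S : Finset ℝ) (c : ℝ → ℝ) (hL : 0 < L) (hS : ∀ s ∈ S, 0 < s) (x : V)
    (z : ℝ) : Tendsto (fun t => KS S c x (dd L (z, t))) atTop (𝓝 (KS S c x (EE L z))) := by
  simp only [KS, dd, EE]
  apply tendsto_finsetSum
  intro s hs
  have hsL : 0 < s + L := add_pos (hS s hs) hL
  have h1 : Tendsto (fun t : ℝ => (s + L) * t) atTop atTop :=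
    Filter.Tendsto.const_mul_atTop hsL tendsto_id
  have h2 : Tendsto (fun t : ℝ => Real.exp (-((s + L) * t))) atTop (𝓝 0) :=
    Real.tendsto_exp_neg_atTop_nhds_zero.comp h1
  have h3 : Tendsto (fun t : ℝ => Real.exp (-((s + L) * z)) - Real.exp (-((s + L) * t))) atTop
      (𝓝 (Real.exp (-((s + L) * z)) - 0)) := tendsto_const_nhds.sub h2
  rw [sub_zero] at h3
  exact h3.const_mul (c s * x.1 s)

lemma MIX_split (h : S_SLC) (L : ℝ) (S : Finset ℝ) (c : ℝ → ℝ) (l1 : List V) (l2 : List V)
    (z z' : ℝ) :
    pf (KS S c) (l1 ++ EE L z :: EE L z' :: l2) =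
      pf (KS S c) (l1 ++ dd L (z, z') :: EE L z' :: l2) +
        KS S c (EE L z') (EE L z') * pf (KS S c) (l1 ++ l2) := by
  have h1 := h.1 V (KS S c) l1 (EE L z' :: l2) (EE L z) (dd L (z, z')) (EE L z')
    (by
      intro x _
      simp only [KS, dd, EE]
      rw [← Finset.sum_add_distrib]
      apply Finset.sum_congr rfl
      intro s _
      ring)
    (by
      intro y _
      simp only [KS, dd, EE]
      rw [← Finset.sum_add_distrib]
      apply Finset.sum_congr rfl
      intro s _
      ring)
  have h2 := pf_swap (KS S c) l1 (EE L z') (EE L z') l2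
  linarith

lemma MIX_diag (L : ℝ) (S : Finset ℝ) (c c' : ℝ → ℝ) (h0 : ∀ s ∈ S, 0 ≤ c' s)
    (h1 : ∀ s ∈ S, c' s ≤ c s) (z : ℝ) :
    0 ≤ KS S c' (EE L z) (EE L z) ∧ KS S c' (EE L z) (EE L z) ≤ KS S c (EE L z) (EE L z) := by
  constructor
  · apply Finset.sum_nonneg
    intro s hs
    exact mul_nonneg (mul_nonneg (h0 s hs) (Real.exp_pos _).le) (Real.exp_pos _).le
  · apply Finset.sum_le_sum
    intro s hs
    exact mul_le_mul_of_nonneg_right
      (mul_le_mul_of_nonneg_right (h1 s hs) (Real.exp_pos _).le) (Real.exp_pos _).le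

theorem p_MIX (h : S_SLC) : S_MIX := by
  intro L S hL hS hD c c' h0 hcc
  have main : ∀ (n : ℕ) (zs : List ℝ), zs.length ≤ n → ∀ ps : List (ℝ × ℝ),
      ps.Pairwise (fun p q => p.2 ≤ q.1) →
      (∀ p ∈ ps, p.1 < p.2) → zs.Pairwise (· < ·) → (∀ p ∈ ps, ∀ z ∈ zs, p.2 ≤ z) →
      0 ≤ pf (KS S c') (ps.map (dd L) ++ zs.map (EE L)) ∧
      pf (KS S c') (ps.map (dd L) ++ zs.map (EE L)) ≤
        pf (KS S c) (ps.map (dd L) ++ zs.map (EE L)) := by
    have base : ∀ ps : List (ℝ × ℝ),
        ps.Pairwise (fun p q => p.2 ≤ q.1) → (∀ p ∈ ps, p.1 < p.2) →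
        0 ≤ pf (KS S c') (ps.map (dd L)) ∧
        pf (KS S c') (ps.map (dd L)) ≤ pf (KS S c) (ps.map (dd L)) := by
      intro ps hps hlt
      have := hD c c' h0 hcc [] ps List.Pairwise.nil hps hlt (by simp)
      simpa using this
    have ext : ∀ (ps : List (ℝ × ℝ)) (z t : ℝ), ps.Pairwise (fun p q => p.2 ≤ q.1) →
        (∀ p ∈ ps, p.1 < p.2) → (∀ p ∈ ps, p.2 ≤ z) → z < t →
        (ps ++ [(z, t)]).Pairwise (fun p q => p.2 ≤ q.1) ∧
        (∀ p ∈ ps ++ [(z, t)], p.1 < p.2) := by
      intro ps z t hps hlt hz hzt
      constructor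
      · rw [List.pairwise_append]
        refine ⟨hps, List.pairwise_singleton _ _, ?_⟩
        intro a ha b hb
        rw [List.mem_singleton] at hb
        subst hb
        exact hz a ha
      · intro p hp
        rw [List.mem_append, List.mem_singleton] at hp
        rcases hp with hp | hp
        · exact hlt p hp
        · subst hp
          exact hzt
    intro n
    induction n with
    | zero =>
      intro zs hlen ps hps hlt _ _
      have hz : zs = [] := List.length_eq_zero_iff.mp (Nat.le_zero.mp hlen)
      subst hz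
      simpa using base ps hps hlt
    | succ n ih =>
      intro zs hlen ps hps hlt hzs hpz
      match zs, hlen, hzs, hpz with
      | [], _, _, _ => simpa using base ps hps hlt
      | [z], _, _, hpz =>
        have hz : ∀ p ∈ ps, p.2 ≤ z := fun p hp => hpz p hp z (by simp)
        have lim : ∀ c : ℝ → ℝ, Tendsto (fun t => pf (KS S c) (ps.map (dd L) ++ [dd L (z, t)]))
            atTop (𝓝 (pf (KS S c) (ps.map (dd L) ++ [EE L z]))) := by
          intro c
          exact h.2.2.1 V (KS S c) (ps.map (dd L)) [] (fun t => dd L (z, t)) (EE L z)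
            (fun x _ => MIX_lim L S c hL hS x z) (by simp)
        have key : ∀ t : ℝ, z < t →
            0 ≤ pf (KS S c') (ps.map (dd L) ++ [dd L (z, t)]) ∧
            pf (KS S c') (ps.map (dd L) ++ [dd L (z, t)]) ≤
              pf (KS S c) (ps.map (dd L) ++ [dd L (z, t)]) := by
          intro t ht
          obtain ⟨e1, e2⟩ := ext ps z t hps hlt hz ht
          have := base (ps ++ [(z, t)]) e1 e2
          simpa using this
        simp only [List.map_cons, List.map_nil]
        constructor
        · apply ge_of_tendsto (lim c')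
          filter_upwards [eventually_gt_atTop z] with t ht
          exact (key t ht).1
        · apply le_of_tendsto_of_tendsto (lim c') (lim c)
          filter_upwards [eventually_gt_atTop z] with t ht
          exact (key t ht).2
      | z :: z' :: R, hlen, hzs, hpz =>
        have hz : ∀ p ∈ ps, p.2 ≤ z := fun p hp => hpz p hp z (by simp)
        rw [List.pairwise_cons] at hzs
        obtain ⟨hz1, hzs1⟩ := hzs
        have hzz : z < z' := hz1 z' (by simp)
        obtain ⟨e1, e2⟩ := ext ps z z' hps hlt hz hzz
        have hlen1 : (z' :: R).length ≤ n := by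
          simp only [List.length_cons] at hlen ⊢
          omega
        have hlen2 : R.length ≤ n := by
          simp only [List.length_cons] at hlen ⊢
          omega
        have A := ih (z' :: R) hlen1 (ps ++ [(z, z')]) e1 e2 hzs1 (by
          intro p hp y hy
          rw [List.mem_append, List.mem_singleton] at hp
          rcases hp with hp | hp
          · exact hpz p hp y (by simp only [List.mem_cons] at hy ⊢; tauto)
          · subst hp
            simp only [List.mem_cons] at hy
            rcases hy with hy | hy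
            · exact hy.ge
            · rw [List.pairwise_cons] at hzs1
              exact (hzs1.1 y hy).le)
        have B := ih R hlen2 ps hps hlt (by
          rw [List.pairwise_cons] at hzs1
          exact hzs1.2) (by
          intro p hp y hy
          exact hpz p hp y (by simp only [List.mem_cons]; tauto))
        have eA : (ps ++ [(z, z')]).map (dd L) ++ (z' :: R).map (EE L) =
            ps.map (dd L) ++ dd L (z, z') :: EE L z' :: R.map (EE L) := by simp
        rw [eA] at A
        obtain ⟨d1, d2⟩ := MIX_diag L S c c' h0 hcc z'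
        simp only [List.map_cons]
        rw [MIX_split h L S c, MIX_split h L S c']
        refine ⟨add_nonneg A.1 (mul_nonneg d1 B.1), add_le_add A.2 ?_⟩
        exact mul_le_mul d2 B.2 B.1 (d1.trans d2)
  intro ps zs hps hlt hzs hpz
  exact main zs.length zs le_rfl ps hps hlt hzs hpz

end Pool.Agent.Lib.MP_c28bf6_an.LC
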