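import Pool.Agent.Lib.MP_c28bf6_an.LC.Stm

/-!
# The Pfaffian of the inverse square on an increasing list is positive
-/

open Filter Topology

set_option autoImplicit false

namespace Pool.Agent.Lib.MP_c28bf6_an.LC

theorem p_PP (h1 : S_LBD) (h2 : S_TK) (h3 : S_APP) : S_PP := by
  intro ys hys hev
  obtain ⟨δ, hδ, hlb⟩ := h1 2 ys hys hev
  obtain ⟨hA, hB, hC⟩ := h3
  have hpos : ∀ M N : ℕ, 1 ≤ M → ∀ s ∈ SM M N, 0 < s := by
    intro M N hM s hs
    unfold SM at hs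
    rw [Finset.mem_image] at hs
    obtain ⟨k, hk, rfl⟩ := hs
    rw [Finset.mem_Icc] at hk
    have h4 : (0 : ℝ) < k := by exact_mod_cast hk.1
    have h5 : (0 : ℝ) < M := by exact_mod_cast hM
    exact div_pos h4 h5
  let K1 : ℕ → ℝ → ℝ → ℝ := fun M a b =>
    ((M : ℝ)⁻¹) ^ 2 * (Real.exp (-((b - a) / M)) / (1 - Real.exp (-((b - a) / M))) ^ 2)
  have h4 : ∀ M : ℕ, 1 ≤ M → δ ≤ pf (K1 M) ys := by
    intro M hM
    have h5 : Tendsto (fun N : ℕ => pf (KE (SM M N) (fun s => s / M)) ys) atTop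
        (𝓝 (pf (K1 M) ys)) := by
      apply h2 ℝ (fun N => KE (SM M N) (fun s => s / M)) (K1 M) ys
      exact hys.imp fun {a b} hab => hA M hM a b hab
    refine ge_of_tendsto h5 ?_
    filter_upwards [eventually_ge_atTop (2 * M)] with N hN
    refine hlb (SM M N) (fun s => s / M) (hpos M N hM) ?_ (hC M N hM hN)
    intro s hs
    exact div_nonneg (hpos M N hM s hs).le (Nat.cast_nonneg M)
  have h6 : Tendsto (fun M : ℕ => pf (K1 M) ys) atTop
      (𝓝 (pf (fun a b => ((b - a) ^ 2)⁻¹) ys)) := by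
    apply h2 ℝ K1 (fun a b => ((b - a) ^ 2)⁻¹) ys
    exact hys.imp fun {a b} hab => hB (b - a) (sub_pos.2 hab)
  have h7 : δ ≤ pf (fun a b : ℝ => ((b - a) ^ 2)⁻¹) ys := by
    refine ge_of_tendsto h6 ?_
    filter_upwards [eventually_ge_atTop 1] with M hM
    exact h4 M hM
  exact lt_of_lt_of_le hδ h7

end Pool.Agent.Lib.MP_c28bf6_an.LC
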