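import Pool.Agent.Lib.MP_c28bf6_an.LC.Stm

/-!
# Charges in equilibrium on a sphere
-/

set_option autoImplicit false

namespace Pool.Agent.Lib.MP_c28bf6_an.LC

open scoped RealInnerProductSpace

private theorem RAD_one {E : Type} [NormedAddCommGroup E] [InnerProductSpace ℝ E] (v u : E)
    (h : ‖v + u‖ = ‖u‖) : ⟪force v, u⟫ = -(‖v‖⁻¹ / 2) := by
  have h1 : ‖v + u‖ ^ 2 = ‖v‖ ^ 2 + 2 * ⟪v, u⟫ + ‖u‖ ^ 2 := norm_add_sq_real v u
  rw [h] at h1
  have h2 : ⟪v, u⟫ = -(‖v‖ ^ 2 / 2) := by linarith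
  rw [force, real_inner_smul_left, h2]
  by_cases hv : ‖v‖ = 0
  · rw [hv]
    simp
  · field_simp

theorem p_RAD : S_RAD := by
  intro E _ _ ι _ X c R hR w hw i
  have h0 : ⟪∑ j, w j • force (X j - X i), X i - c⟫ = 0 := by
    rw [hw i, inner_zero_left]
  rw [sum_inner] at h0
  have h1 : ∀ j, ⟪w j • force (X j - X i), X i - c⟫ = -(1 / 2) * (w j * ‖X j - X i‖⁻¹) := by
    intro j
    have h2 : ‖(X j - X i) + (X i - c)‖ = ‖X i - c‖ := by
      rw [sub_add_sub_cancel, hR, hR]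
    rw [real_inner_smul_left, RAD_one _ _ h2]
    ring
  rw [Finset.sum_congr rfl (fun j _ => h1 j), ← Finset.mul_sum] at h0
  linarith

end Pool.Agent.Lib.MP_c28bf6_an.LC
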