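import Pool.Agent.Lib.MP_c28bf6_an.LC.Stm

/-! Piece RHO: shift invariant spaces of charges. -/

set_option autoImplicit false

namespace Pool.Agent.Lib.MP_c28bf6_an.LC

theorem p_RHO : S_RHO := by
  intro n _ W hS hsum h0 w hw
  by_cases hw0 : w 0 = 0
  · have := h0 w hw hw0
    intro j
    simp [this]
  set v : ZMod n → ℝ := w 0 • (fun j => w (j + 1)) - w 1 • w with hv
  have hvW : v ∈ W := W.sub_mem (W.smul_mem _ (hS w hw)) (W.smul_mem _ hw)
  have hv0 : v 0 = 0 := by
    simp only [hv, Pi.sub_apply, Pi.smul_apply, smul_eq_mul, zero_add]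
    ring
  have hvz := h0 v hvW hv0
  set ρ : ℝ := w 1 / w 0 with hρ
  have hstep : ∀ j, w (j + 1) = ρ * w j := by
    intro j
    have h1 : v j = 0 := by rw [hvz]; rfl
    simp only [hv, Pi.sub_apply, Pi.smul_apply, smul_eq_mul] at h1
    rw [hρ]
    field_simp
    linarith
  have hpow : ∀ k : ℕ, w (k : ZMod n) = ρ ^ k * w 0 := by
    intro k
    induction k with
    | zero => simp
    | succ k ih =>
      rw [Nat.cast_succ, hstep, ih, pow_succ]
      ring
  have hn : n ≠ 0 := NeZero.ne n
  have hρn : ρ ^ n = 1 := by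
    have h1 := hpow n
    rw [ZMod.natCast_self] at h1
    have h2 : (ρ ^ n - 1) * w 0 = 0 := by linarith
    rcases mul_eq_zero.mp h2 with h3 | h3
    · linarith
    · exact absurd h3 hw0
  have habs : |ρ| = 1 := by
    have h1 : |ρ| ^ n = 1 := by rw [← abs_pow, hρn, abs_one]
    exact (pow_eq_one_iff_of_nonneg (abs_nonneg ρ) hn).mp h1
  rcases (abs_eq (by norm_num : (0 : ℝ) ≤ 1)).mp habs with h1 | h1
  · exfalso
    apply hw0
    have hconst : ∀ j, w j = w 0 := by
      intro j
      have h2 := hpow j.val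
      rw [ZMod.natCast_zmod_val, h1, one_pow, one_mul] at h2
      exact h2
    have h3 := hsum w hw
    have h4 : ∑ j, w j = ∑ _j : ZMod n, w 0 := Finset.sum_congr rfl (fun j _ => hconst j)
    rw [h4, Finset.sum_const, Finset.card_univ, ZMod.card, nsmul_eq_mul] at h3
    rcases mul_eq_zero.mp h3 with h5 | h5
    · exact absurd (Nat.cast_eq_zero.mp h5) hn
    · exact h5
  · intro j
    rw [hstep, h1]
    ring

end Pool.Agent.Lib.MP_c28bf6_an.LC
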