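import Pool.Agent.Lib.MP_c28bf6_an.LC.Stm

/-!
# Corollaries of the slot lemma
-/

open Filter Topology

set_option autoImplicit false

namespace Pool.Agent.Lib.MP_c28bf6_an.LC

lemma SLC_ind (h : S_SLOT) {α : Type} (K : α → α → ℝ) (l1 l2 : List α)
    (p : (α → ℝ) → Prop) (h1 : ∀ x ∈ l1, p (fun w => K x w)) (h2 : ∀ y ∈ l2, p (fun w => K w y))
    (h0 : p 0) (hadd : ∀ f g, p f → p g → p (f + g)) (hsmul : ∀ (c : ℝ) f, p f → p (c • f)) :
    p (fun w => pf K (l1 ++ w :: l2)) := by
  refine Submodule.span_induction (p := fun f _ => p f) ?_ h0 (fun f g _ _ => hadd f g)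
    (fun c f _ => hsmul c f) (h α K l1 l2)
  rintro f (⟨x, hx, rfl⟩ | ⟨y, hy, rfl⟩)
  · exact h1 x hx
  · exact h2 y hy

theorem p_SLC (h : S_SLOT) : S_SLC := by
  refine ⟨?_, ?_, ?_, ?_⟩
  · intro α K l1 l2 w u v h1 h2
    refine SLC_ind h K l1 l2 (fun f => f w = f u + f v) h1 h2 (by simp) ?_ ?_
    · intro f g hf hg
      simp only [Pi.add_apply]
      rw [hf, hg]
      ring
    · intro c f hf
      simp only [Pi.smul_apply, smul_eq_mul]
      rw [hf]
      ring
  · intro α K l1 l2 w w' t h1 h2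
    refine SLC_ind h K l1 l2 (fun f => HasDerivAt (fun s => f (w s)) (f w') t) h1 h2
      (hasDerivAt_const t (0 : ℝ)) ?_ ?_
    · intro f g hf hg
      exact hf.add hg
    · intro c f hf
      exact hf.const_mul c
  · intro α K l1 l2 w w0 h1 h2
    refine SLC_ind h K l1 l2 (fun f => Tendsto (fun s => f (w s)) atTop (𝓝 (f w0))) h1 h2
      tendsto_const_nhds ?_ ?_
    · intro f g hf hg
      exact hf.add hg
    · intro c f hf
      exact hf.const_mul c
  · intro ι _ K c l1 l2 hK hx
    refine SLC_ind h K l1 l2 (fun f => ∑ j, c j * f j = 0)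
      (fun x h1 => hx x (List.mem_append_left _ h1)) ?_ (by simp) ?_ ?_
    · intro y hy
      have h1 := hx y (List.mem_append_right _ hy)
      have h2 : ∀ j, c j * K j y = -(c j * K y j) := fun j => by
        rw [hK j y]
        ring
      show ∑ j, c j * K j y = 0
      simp only [h2, Finset.sum_neg_distrib, h1, neg_zero]
    · intro f g hf hg
      simp only [Pi.add_apply, mul_add, Finset.sum_add_distrib]
      rw [hf, hg, add_zero]
    · intro a f hf
      have h1 : ∀ j, c j * (a • f) j = a * (c j * f j) := fun j => by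
        simp only [Pi.smul_apply, smul_eq_mul]
        ring
      simp only [h1, ← Finset.mul_sum]
      rw [hf, mul_zero]

end Pool.Agent.Lib.MP_c28bf6_an.LC
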