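import Pool.Agent.Lib.MP_c28bf6_an.LC.Stm

/-!
# MP_c28bf6_an, line and circle theorem: piece SLOT
-/

set_option autoImplicit false

namespace Pool.Agent.Lib.MP_c28bf6_an.LC

theorem SLOT_sum {α β : Type} (M : Submodule ℝ (α → ℝ)) (F : β → List β → α → ℝ) (l : List β)
    (h : ∀ x m, x ∈ l → List.Sublist m l → m.length + 1 = l.length → F x m ∈ M) :
    (fun w => sumE (fun x m => F x m w) l) ∈ M := by
  induction l generalizing F with
  | nil => exact M.zero_mem
  | cons a l ih =>
    have h1 : (fun w => sumE (fun x m => F x m w) (a :: l)) =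
        F a l - fun w => sumE (fun y m => F y (a :: m) w) l := by
      funext w
      rfl
    rw [h1]
    apply M.sub_mem
    · exact h a l (by simp) (List.sublist_cons_self a l) (by simp)
    · apply ih (fun y m => F y (a :: m))
      intro x m hx hm hlen
      exact h x (a :: m) (by simp [hx]) (hm.cons_cons a) (by simp [hlen])

theorem SLOT_aux (α : Type) (K : α → α → ℝ) (n : ℕ) : ∀ l1 l2 : List α,
    l1.length + l2.length = n → (fun w => pf K (l1 ++ w :: l2)) ∈ Submodule.span ℝ
      ({f : α → ℝ | ∃ x ∈ l1, f = fun w => K x w} ∪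
        {f : α → ℝ | ∃ y ∈ l2, f = fun w => K w y}) := by
  induction n using Nat.strong_induction_on with
  | _ n ih =>
    intro l1 l2 hn
    have hmono : ∀ l1' l2' : List α, (∀ x ∈ l1', x ∈ l1) → (∀ x ∈ l2', x ∈ l2) →
        Submodule.span ℝ ({f : α → ℝ | ∃ x ∈ l1', f = fun w => K x w} ∪
          {f : α → ℝ | ∃ y ∈ l2', f = fun w => K w y}) ≤
        Submodule.span ℝ ({f : α → ℝ | ∃ x ∈ l1, f = fun w => K x w} ∪
          {f : α → ℝ | ∃ y ∈ l2, f = fun w => K w y}) := by
      intro l1' l2' h1 h2
      apply Submodule.span_mono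
      rintro f (⟨x, hx, rfl⟩ | ⟨y, hy, rfl⟩)
      · exact Or.inl ⟨x, h1 x hx, rfl⟩
      · exact Or.inr ⟨y, h2 y hy, rfl⟩
    cases l1 with
    | nil =>
      have h1 : (fun w => pf K ([] ++ w :: l2)) =
          fun w => sumE (fun x m => ((pf K m) • fun w' => K w' x) w) l2 := by
        funext w
        rw [List.nil_append, pf_cons]
        apply sumE_congr
        intro x m _ _ _
        show K w x * pf K m = pf K m * K w x
        ring
      rw [h1]
      apply SLOT_sum _ (fun x m => (pf K m) • fun w' => K w' x)
      intro x m hx _ _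
      exact Submodule.smul_mem _ _ (Submodule.subset_span (Or.inr ⟨x, hx, rfl⟩))
    | cons a l1 =>
      have h1 : (fun w => pf K (a :: l1 ++ w :: l2)) =
          (fun w => sumE (fun x m => ((K a x) • fun w' => pf K (m ++ w' :: l2)) w) l1) +
          ((-1) ^ l1.length : ℝ) • ((pf K (l1 ++ l2) • fun w => K a w) -
            fun w => sumE (fun x m => ((K a x) • fun w' => pf K (l1 ++ w' :: m)) w) l2) := by
        funext w
        rw [List.cons_append, pf_cons_append]
        show _ = sumE (fun x m => (K a x) * pf K (m ++ w :: l2)) l1 +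
          (-1) ^ l1.length * (pf K (l1 ++ l2) * K a w -
            sumE (fun x m => (K a x) * pf K (l1 ++ w :: m)) l2)
        ring
      rw [h1]
      rw [List.length_cons] at hn
      apply Submodule.add_mem
      · apply SLOT_sum _ (fun x m => (K a x) • fun w' => pf K (m ++ w' :: l2))
        intro x m _ hm hlen
        apply Submodule.smul_mem
        exact hmono m l2 (fun y hy => List.mem_cons_of_mem _ (hm.subset hy)) (fun y hy => hy)
          (ih (m.length + l2.length) (by omega) m l2 rfl)
      · apply Submodule.smul_mem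
        apply Submodule.sub_mem
        · exact Submodule.smul_mem _ _
            (Submodule.subset_span (Or.inl ⟨a, List.mem_cons_self, rfl⟩))
        · apply SLOT_sum _ (fun x m => (K a x) • fun w' => pf K (l1 ++ w' :: m))
          intro x m _ hm hlen
          apply Submodule.smul_mem
          exact hmono l1 m (fun y hy => List.mem_cons_of_mem _ hy) (fun y hy => hm.subset hy)
            (ih (l1.length + m.length) (by omega) l1 m rfl)

theorem p_SLOT : S_SLOT := by
  intro α K l1 l2
  exact SLOT_aux α K _ l1 l2 rfl

end Pool.Agent.Lib.MP_c28bf6_an.LC
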