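import Pool.Agent.Lib.MP_c28bf6_an.LC.Stm

set_option autoImplicit false

/-!
# MP_c28bf6_an, line and circle theorem: piece SORT
-/

namespace Pool.Agent.Lib.MP_c28bf6_an.LC

theorem p_SORT : S_SORT := by
  intro ι _ s T
  induction T using Finset.induction_on_max_value s with
  | empty =>
    intro _
    exact ⟨[], List.nodup_nil, fun i => by simp, rfl, List.Pairwise.nil⟩
  | insert a T ha hmax ih =>
    intro hinj
    obtain ⟨l, h1, h2, h3, h4⟩ := ih (fun i hi j hj h =>
      hinj i (Finset.mem_insert_of_mem hi) j (Finset.mem_insert_of_mem hj) h)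
    have h5 : (l ++ [a]).Pairwise (fun i j => s i < s j) := by
      rw [List.pairwise_append]
      refine ⟨h4, List.pairwise_singleton _ _, ?_⟩
      intro x hx y hy
      rw [List.mem_singleton] at hy
      subst hy
      have hxT : x ∈ T := (h2 x).1 hx
      refine lt_of_le_of_ne (hmax x hxT) (fun h => ?_)
      have h6 := hinj x (Finset.mem_insert_of_mem hxT) y (Finset.mem_insert_self _ _) h
      rw [h6] at hxT
      exact ha hxT
    refine ⟨l ++ [a], h5.imp (fun {i j} h => ?_), ?_, ?_, h5⟩
    · rintro rfl
      exact lt_irrefl _ h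
    · intro i
      rw [List.mem_append, List.mem_singleton, Finset.mem_insert, h2, or_comm]
    · rw [List.length_append, List.length_singleton, h3, Finset.card_insert_of_notMem ha]

end Pool.Agent.Lib.MP_c28bf6_an.LC
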