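import Pool.Agent.Lib.MP_c28bf6_an.LC.Stm

/-!
# Limits of kernels
-/

open Filter Topology

set_option autoImplicit false

namespace Pool.Agent.Lib.MP_c28bf6_an.LC

lemma TK_sumE {α : Type} (F : ℕ → α → List α → ℝ) (F0 : α → List α → ℝ) (l : List α)
    (h : ∀ x m, x ∈ l → List.Sublist m l → m.length + 1 = l.length →
      Tendsto (fun n => F n x m) atTop (𝓝 (F0 x m))) :
    Tendsto (fun n => sumE (F n) l) atTop (𝓝 (sumE F0 l)) := by
  induction l generalizing F F0 with
  | nil => exact tendsto_const_nhds
  | cons a l ih =>
    simp only [sumE_cons]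
    apply Tendsto.sub
    · exact h a l (by simp) (List.sublist_cons_self a l) (by simp)
    · apply ih (fun n y m => F n y (a :: m)) (fun y m => F0 y (a :: m))
      intro x m hx hm hlen
      exact h x (a :: m) (by simp [hx]) (hm.cons_cons a) (by simp [hlen])

theorem p_TK : S_TK := by
  intro α K K0 l
  induction hN : l.length using Nat.strong_induction_on generalizing l with
  | _ N ih =>
    intro h
    cases l with
    | nil => exact tendsto_const_nhds
    | cons a l =>
      simp only [pf_cons]
      rw [List.pairwise_cons] at h
      apply TK_sumE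
      intro x m hx hm hlen
      apply Tendsto.mul (h.1 x hx)
      exact ih m.length (by rw [← hN]; simp; omega) m rfl (h.2.sublist hm)

end Pool.Agent.Lib.MP_c28bf6_an.LC
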