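import Pool.Agent.Lib.MP_c28bf6_an.LC.Stm

/-!
# Line and circle theorem, piece TOP: points and lower bound
-/

open Filter Topology

set_option autoImplicit false

namespace Pool.Agent.Lib.MP_c28bf6_an.LC

private theorem TOP_kernel (S : Finset ℝ) (c : ℝ → ℝ) (L a b : ℝ) :
    KS S c (EE L a) (EE L b) = Real.exp (-(L * a)) * Real.exp (-(L * b)) * KE S c a b := by
  unfold KS KE EE
  rw [Finset.mul_sum]
  apply Finset.sum_congr rfl
  intro s _
  have h : Real.exp ((s - L) * a) * Real.exp (-((s + L) * b)) =
      Real.exp (-(L * a)) * Real.exp (-(L * b)) * Real.exp (s * (a - b)) := by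
    rw [← Real.exp_add, ← Real.exp_add, ← Real.exp_add]
    congr 1
    ring
  change c s * Real.exp ((s - L) * a) * Real.exp (-((s + L) * b)) = _
  rw [mul_assoc, h]
  ring

private theorem TOP_pf (h1 : S_ALG) (S : Finset ℝ) (c : ℝ → ℝ) (L : ℝ) (ys : List ℝ) :
    pf (KS S c) (ys.map (EE L)) =
      (ys.map fun y => Real.exp (-(L * y))).prod * pf (KE S c) ys := by
  rw [h1.2.1]
  have h : (fun a b => KS S c (EE L a) (EE L b)) = fun a b =>
      (fun y => Real.exp (-(L * y))) a * (fun y => Real.exp (-(L * y))) b * KE S c a b := by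
    funext a b
    exact TOP_kernel S c L a b
  rw [h]
  exact h1.2.2 ℝ (fun y => Real.exp (-(L * y))) (KE S c) ys

private theorem TOP_pos (L : ℝ) (ys : List ℝ) :
    0 < (ys.map fun y => Real.exp (-(L * y))).prod := by
  apply List.prod_pos
  intro x hx
  obtain ⟨y, -, rfl⟩ := List.mem_map.1 hx
  exact Real.exp_pos _

theorem p_TOP (h1 : S_ALG) (h2 : S_SLC) : S_TOP := by
  intro L S hM
  constructor
  · intro c c' hc' hcc ys hys
    have h := hM c c' hc' hcc [] ys List.Pairwise.nil (by simp) hys (by simp)
    rw [List.map_nil, List.nil_append, TOP_pf h1, TOP_pf h1] at h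
    have hp := TOP_pos L ys
    exact ⟨le_of_mul_le_mul_left (by rw [mul_zero]; exact h.1) hp,
      le_of_mul_le_mul_left h.2 hp⟩
  · intro c hc a b R hR
    have hab : a < b := (List.pairwise_cons.1 hR).1 b (by simp)
    have hbR := (List.pairwise_cons.1 hR).2
    have h3 := (hM c c hc (fun _ _ => le_rfl) [(a, b)] (b :: R)
      (List.pairwise_singleton _ _) (by simpa using hab) hbR (by
        intro p hp z hz
        rw [List.mem_singleton] at hp
        subst hp
        change b ≤ z
        rcases List.mem_cons.1 hz with rfl | hz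
        · exact le_rfl
        · exact ((List.pairwise_cons.1 hbR).1 z hz).le)).1
    have h4 := h2.1 V (KS S c) [] ((b :: R).map (EE L)) (EE L a) (dd L (a, b)) (EE L b)
      (by simp) (by
        intro y _
        unfold KS
        rw [← Finset.sum_add_distrib]
        apply Finset.sum_congr rfl
        intro s _
        change c s * Real.exp ((s - L) * a) * y.2 s =
          c s * (Real.exp ((s - L) * a) - Real.exp ((s - L) * b)) * y.2 s +
          c s * Real.exp ((s - L) * b) * y.2 s
        ring)
    rw [List.nil_append, List.nil_append, List.nil_append] at h4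
    have h5 := pf_swap (KS S c) [] (EE L b) (EE L b) (R.map (EE L))
    rw [List.nil_append, List.nil_append, TOP_pf h1, TOP_kernel] at h5
    have h6 : KE S c b b = ∑ s ∈ S, c s := by
      unfold KE
      simp
    rw [h6] at h5
    have h7 := TOP_pf h1 S c L (a :: b :: R)
    simp only [List.map_cons, List.prod_cons, List.map_nil, List.cons_append,
      List.nil_append] at h3 h4 h5 h7
    have hp := TOP_pos L R
    set P := (R.map fun y => Real.exp (-(L * y))).prod
    have hea := Real.exp_pos (-(L * a))
    have heb := Real.exp_pos (-(L * b))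
    have h8 : Real.exp (-(L * b)) =
        Real.exp (-(L * (b - a))) * Real.exp (-(L * a)) := by
      rw [← Real.exp_add]
      congr 1
      ring
    have h9 : Real.exp (-(L * a)) * Real.exp (-(L * b)) * P *
        (Real.exp (-(L * (b - a))) * (∑ s ∈ S, c s) * pf (KE S c) R) ≤
        Real.exp (-(L * a)) * Real.exp (-(L * b)) * P * pf (KE S c) (a :: b :: R) := by
      have e1 : Real.exp (-(L * a)) * Real.exp (-(L * b)) * P *
          (Real.exp (-(L * (b - a))) * (∑ s ∈ S, c s) * pf (KE S c) R) =
          Real.exp (-(L * b)) * Real.exp (-(L * b)) * (∑ s ∈ S, c s) * (P * pf (KE S c) R) := by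
        nth_rewrite 3 [h8]
        ring
      rw [e1]
      linarith
    exact le_of_mul_le_mul_left h9 (by positivity)

end Pool.Agent.Lib.MP_c28bf6_an.LC
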