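import Pool.Agent.Lib.MP_c28bf6_an.LC.Stm

/-!
# Algebra of Pfaffians of lists: congruence, map, diagonal factor
-/

set_option autoImplicit false

namespace Pool.Agent.Lib.MP_c28bf6_an.LC

/-- congruence for `sumE`, with the permutation of the list in the hypothesis -/
lemma ALG_congr {α : Type} {F G : α → List α → ℝ} {l : List α}
    (h : ∀ x m, x ∈ l → List.Sublist m l → m.length + 1 = l.length → (x :: m).Perm l →
      F x m = G x m) :
    sumE F l = sumE G l := by
  induction l generalizing F G with
  | nil => rfl
  | cons a l ih =>
    rw [sumE_cons, sumE_cons, h a l (by simp) (List.sublist_cons_self a l) (by simp)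
      (List.Perm.refl _)]
    congr 1
    apply ih
    intro x m hx hm hlen hp
    exact h x (a :: m) (by simp [hx]) (hm.cons_cons a) (by simp [hlen])
      ((List.Perm.swap a x m).trans (hp.cons a))

lemma ALG_one (α : Type) (K K' : α → α → ℝ) (n : ℕ) : ∀ l : List α, l.length ≤ n →
    l.Pairwise (fun a b => K a b = K' a b) → pf K l = pf K' l := by
  induction n with
  | zero =>
    intro l hl _
    have h0 : l = [] := List.eq_nil_of_length_eq_zero (by omega)
    subst h0
    rfl
  | succ n ih =>
    intro l hl hp
    cases l with
    | nil => rfl
    | cons a l =>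
      rw [pf_cons, pf_cons]
      rw [List.pairwise_cons] at hp
      rw [List.length_cons] at hl
      apply sumE_congr
      intro x m hx hm hlen
      rw [hp.1 x hx, ih m (by omega) (hp.2.sublist hm)]

lemma ALG_two (α β : Type) (f : β → α) (K : α → α → ℝ) (n : ℕ) : ∀ l : List β, l.length ≤ n →
    pf K (l.map f) = pf (fun a b => K (f a) (f b)) l := by
  induction n with
  | zero =>
    intro l hl
    have h0 : l = [] := List.eq_nil_of_length_eq_zero (by omega)
    subst h0
    rfl
  | succ n ih =>
    intro l hl
    cases l with
    | nil => rfl
    | cons a l =>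
      rw [List.map_cons, pf_cons, pf_cons, sumE_map]
      rw [List.length_cons] at hl
      apply sumE_congr
      intro x m hx hm hlen
      rw [ih m (by omega)]

lemma ALG_three (α : Type) (g : α → ℝ) (K : α → α → ℝ) (n : ℕ) : ∀ l : List α, l.length ≤ n →
    pf (fun a b => g a * g b * K a b) l = (l.map g).prod * pf K l := by
  induction n with
  | zero =>
    intro l hl
    have h0 : l = [] := List.eq_nil_of_length_eq_zero (by omega)
    subst h0
    simp
  | succ n ih =>
    intro l hl
    cases l with
    | nil => simp
    | cons a l =>
      rw [pf_cons, pf_cons, ← sumE_smul]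
      rw [List.length_cons] at hl
      apply ALG_congr
      intro x m hx hm hlen hp
      have h1 : g x * (m.map g).prod = (l.map g).prod := by
        have := (hp.map g).prod_eq
        rw [← this, List.map_cons, List.prod_cons]
      rw [ih m (by omega), List.map_cons, List.prod_cons, ← h1]
      ring

theorem p_ALG : S_ALG :=
  ⟨fun α K K' l h => ALG_one α K K' l.length l le_rfl h,
    fun α β f K l => ALG_two α β f K l.length l le_rfl,
    fun α g K l => ALG_three α g K l.length l le_rfl⟩

end Pool.Agent.Lib.MP_c28bf6_an.LC
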