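import Pool.Agent.Lib.MP_c28bf6_an.LC.Stm

/-!
# Inversion of charges in equilibrium
-/

open Filter Topology

set_option autoImplicit false

namespace Pool.Agent.Lib.MP_c28bf6_an.LC

section

variable {E : Type} [NormedAddCommGroup E] [InnerProductSpace ℝ E]

/-- the distance of the images of an inversion -/
theorem INV_norm (a b : E) (ha : a ≠ 0) (hb : b ≠ 0) :
    ‖(‖b‖ ^ 2)⁻¹ • b - (‖a‖ ^ 2)⁻¹ • a‖ = ‖b - a‖ / (‖a‖ * ‖b‖) := by
  have hA : 0 < ‖a‖ := norm_pos_iff.mpr ha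
  have hB : 0 < ‖b‖ := norm_pos_iff.mpr hb
  have h1 : ‖(‖b‖ ^ 2)⁻¹ • b - (‖a‖ ^ 2)⁻¹ • a‖ ^ 2 = (‖b - a‖ / (‖a‖ * ‖b‖)) ^ 2 := by
    rw [div_pow, norm_sub_sq_real b a, norm_sub_sq_real, norm_smul, norm_smul,
      inner_smul_left, inner_smul_right, Real.norm_of_nonneg (by positivity),
      Real.norm_of_nonneg (by positivity)]
    simp only [conj_trivial]
    field_simp
    ring
  exact (sq_eq_sq₀ (norm_nonneg _) (by positivity)).mp h1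

/-- one term -/
theorem INV_term (a b : E) (ha : a ≠ 0) (hb : b ≠ 0) :
    ‖b‖⁻¹ • force ((‖b‖ ^ 2)⁻¹ • b - (‖a‖ ^ 2)⁻¹ • a) =
      ‖a‖ ^ 3 • (force (b - a) -
        ((‖a‖ ^ 2)⁻¹ * (2 * inner ℝ (force (b - a)) a + ‖b - a‖⁻¹)) • a) := by
  have hA : 0 < ‖a‖ := norm_pos_iff.mpr ha
  have hB : 0 < ‖b‖ := norm_pos_iff.mpr hb
  by_cases hab : b = a
  · subst hab
    simp
  · have hr : 0 < ‖b - a‖ := norm_pos_iff.mpr (sub_ne_zero.mpr hab)
    have h2 : ‖b‖ ^ 2 = ‖a‖ ^ 2 + 2 * inner ℝ (b - a) a + ‖b - a‖ ^ 2 := by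
      have h3 : b = a + (b - a) := by abel
      have h4 := norm_add_sq_real a (b - a)
      rw [← h3] at h4
      rw [h4, real_inner_comm]
    unfold force
    rw [INV_norm a b ha hb, inner_smul_left, conj_trivial, smul_smul, smul_sub, smul_smul,
      smul_smul, smul_sub, smul_smul, smul_smul, smul_sub]
    have e1 : ‖b‖⁻¹ * ((‖b - a‖ / (‖a‖ * ‖b‖)) ^ 3)⁻¹ * (‖b‖ ^ 2)⁻¹ =
        ‖a‖ ^ 3 * (‖b - a‖ ^ 3)⁻¹ := by
      field_simp
    have e2 : ‖b‖⁻¹ * ((‖b - a‖ / (‖a‖ * ‖b‖)) ^ 3)⁻¹ * (‖a‖ ^ 2)⁻¹ =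
        ‖a‖ ^ 3 * (‖b - a‖ ^ 3)⁻¹ + ‖a‖ ^ 3 *
          ((‖a‖ ^ 2)⁻¹ * (2 * ((‖b - a‖ ^ 3)⁻¹ * inner ℝ (b - a) a) + ‖b - a‖⁻¹)) := by
      have e3 : ‖b‖⁻¹ * ((‖b - a‖ / (‖a‖ * ‖b‖)) ^ 3)⁻¹ * (‖a‖ ^ 2)⁻¹ =
          ‖a‖ * (‖b - a‖ ^ 3)⁻¹ * ‖b‖ ^ 2 := by
        field_simp
      rw [e3, h2]
      field_simp
      ring
    rw [e1, e2, add_smul]
    abel

end

/-- Inversion of charges in equilibrium. -/
theorem p_INV : S_INV := by
  intro E _ _ ι _ _ X k w hX heq hpot i hik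
  have ha : X i - X k ≠ 0 := sub_ne_zero.mpr fun h => hik (hX h)
  have hA : 0 < ‖X i - X k‖ := norm_pos_iff.mpr ha
  -- one term
  have h1 : ∀ j ∈ Finset.univ.erase k,
      (w j * ‖X j - X k‖⁻¹) • force (iv X k j - iv X k i) =
        ‖X i - X k‖ ^ 3 • (w j • force (X j - X i) -
          ((‖X i - X k‖ ^ 2)⁻¹ * (2 * inner ℝ (w j • force (X j - X i)) (X i - X k) +
            w j * ‖X j - X i‖⁻¹)) • (X i - X k)) := by
    intro j hj
    have hjk : j ≠ k := Finset.ne_of_mem_erase hj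
    have hb : X j - X k ≠ 0 := sub_ne_zero.mpr fun h => hjk (hX h)
    have h2 := INV_term (X i - X k) (X j - X k) ha hb
    rw [sub_sub_sub_cancel_right] at h2
    unfold iv
    rw [mul_smul, h2, smul_comm, smul_sub, smul_smul, inner_smul_left, conj_trivial]
    congr 3
    ring
  -- the sums over `j ≠ k`
  have h3 : ∑ j ∈ Finset.univ.erase k, w j • force (X j - X i) =
      (w k * (‖X i - X k‖ ^ 3)⁻¹) • (X i - X k) := by
    have h4 := heq i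
    rw [← Finset.add_sum_erase Finset.univ _ (Finset.mem_univ k)] at h4
    rw [← neg_sub (X i) (X k), force_neg, smul_neg, neg_add_eq_zero] at h4
    rw [← h4, force, smul_smul]
  have h5 : ∑ j ∈ Finset.univ.erase k, w j * ‖X j - X i‖⁻¹ = - (w k * ‖X i - X k‖⁻¹) := by
    have h6 := hpot i
    rw [← Finset.add_sum_erase Finset.univ _ (Finset.mem_univ k), norm_sub_rev (X k)] at h6
    linarith
  rw [Finset.sum_congr rfl h1, ← Finset.smul_sum, Finset.sum_sub_distrib, ← Finset.sum_smul,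
    ← Finset.mul_sum, Finset.sum_add_distrib, ← Finset.mul_sum, ← sum_inner, h3, h5,
    inner_smul_left, conj_trivial, real_inner_self_eq_norm_sq, ← sub_smul]
  have h7 : w k * (‖X i - X k‖ ^ 3)⁻¹ - (‖X i - X k‖ ^ 2)⁻¹ *
      (2 * (w k * (‖X i - X k‖ ^ 3)⁻¹ * ‖X i - X k‖ ^ 2) + - (w k * ‖X i - X k‖⁻¹)) = 0 := by
    field_simp
    ring
  rw [h7, zero_smul, smul_zero]

end Pool.Agent.Lib.MP_c28bf6_an.LC
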