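import Pool.Agent.Lib.MP_c28bf6_an.LC.Stm

/-!
# Positivity for all exponential sums
-/

set_option autoImplicit false

namespace Pool.Agent.Lib.MP_c28bf6_an.LC

/-- the Pfaffian of the kernel zero is nonnegative -/
lemma POS_zero (ys : List ℝ) : 0 ≤ pf (fun _ _ : ℝ => (0 : ℝ)) ys := by
  cases ys with
  | nil => simp
  | cons a l =>
    rw [pf_cons]
    have h : sumE (fun (_ : ℝ) (m : List ℝ) => (0 : ℝ) * pf (fun _ _ : ℝ => (0 : ℝ)) m) l =
        sumE (fun (_ : ℝ) (_ : List ℝ) => (0 : ℝ)) l := by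
      apply sumE_congr
      intro x m _ _ _
      ring
    rw [h, sumE_zero]

lemma POS_empty : Pos ∅ := by
  intro c c' _ _ ys _
  have h : ∀ c : ℝ → ℝ, KE ∅ c = fun _ _ : ℝ => (0 : ℝ) := by
    intro c
    funext a b
    simp [KE]
  rw [h c, h c']
  exact ⟨POS_zero ys, le_rfl⟩

theorem p_POS (h1 : S_DIF) (h2 : S_MIX) (h3 : S_TOP) : S_POS := by
  intro S
  refine Finset.induction_on_max S ?_ ?_
  · intro _
    refine ⟨POS_empty, fun L hL => ?_⟩
    simp at hL
  · intro L S' hlt ih hpos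
    have hpos' : ∀ s ∈ S', 0 < s := fun s hs => hpos s (Finset.mem_insert_of_mem hs)
    have hL : 0 < L := hpos L (Finset.mem_insert_self L S')
    have hT := h3 L (insert L S') (h2 L (insert L S') hL hpos (h1 L S' hlt hpos' (ih hpos').1))
    refine ⟨hT.1, fun L1 hL1 hmax => ?_⟩
    have e : L1 = L := by
      have h4 : L ≤ L1 := hmax L (Finset.mem_insert_self L S')
      rcases Finset.mem_insert.1 hL1 with h5 | h5
      · exact h5
      · exact absurd (hlt L1 h5) (not_lt.2 h4)
    rw [e]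
    exact hT.2

end Pool.Agent.Lib.MP_c28bf6_an.LC
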